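import Pool.Agent.Q285.NG.Brw
import Pool.Agent.Helper923.PNT

/-!
# The weights `log p / √(X log X)`
-/

set_option autoImplicit false
set_option linter.unusedSectionVars false

namespace Q285NG

open Finset Filter
open scoped Topology
open Q282.BP (PP)

/-- the weights -/
noncomputable def lm (X p : ℕ) : ℝ := if p ≤ X then Real.log p / Real.sqrt (X * Real.log X) else 0

/-- a small function -/
noncomputable def sf (X : ℕ) : ℝ := (1 + Real.log X) * Real.sqrt (Real.log X / X)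

lemma sf_tendsto : Tendsto (fun X : ℕ => sf X) atTop (𝓝 0) := by
  have h1 : ∀ n : ℕ, Tendsto (fun x : ℝ => Real.log x ^ n / x) atTop (𝓝 0) := fun n =>
    (Real.isLittleO_pow_log_id_atTop (n := n)).tendsto_div_nhds_zero
  have h2 : Tendsto (fun x : ℝ => Real.log x ^ 1 / x + 2 * (Real.log x ^ 2 / x) + Real.log x ^ 3 / x) atTop (𝓝 (0 + 2 * 0 + 0)) :=
    ((h1 1).add ((h1 2).const_mul 2)).add (h1 3)
  have h3 : Tendsto (fun x : ℝ => Real.sqrt (Real.log x ^ 1 / x + 2 * (Real.log x ^ 2 / x) + Real.log x ^ 3 / x)) atTop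
      (𝓝 (Real.sqrt (0 + 2 * 0 + 0))) := (Real.continuous_sqrt.tendsto _).comp h2
  have h4 : (0 : ℝ) + 2 * 0 + 0 = 0 := by norm_num
  rw [h4, Real.sqrt_zero] at h3
  refine (h3.comp tendsto_natCast_atTop_atTop).congr' ?_
  filter_upwards [eventually_ge_atTop 1] with X hX
  have hX1 : (1 : ℝ) ≤ X := by exact_mod_cast hX
  have hl : 0 ≤ Real.log X := Real.log_nonneg hX1
  show Real.sqrt (Real.log X ^ 1 / X + 2 * (Real.log X ^ 2 / X) + Real.log X ^ 3 / X) = (1 + Real.log X) * Real.sqrt (Real.log X / X)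
  have h5 : Real.log X ^ 1 / X + 2 * (Real.log X ^ 2 / X) + Real.log X ^ 3 / X = (1 + Real.log X) ^ 2 * (Real.log X / X) := by ring
  rw [h5, Real.sqrt_mul (sq_nonneg _), Real.sqrt_sq (by linarith)]

section

variable {X : ℕ} (hX : 2 ≤ X)

include hX

lemma log_div_sqrt : Real.log X / Real.sqrt (X * Real.log X) = Real.sqrt (Real.log X / X) := by
  have hX1 : (1 : ℝ) < X := by exact_mod_cast (by omega : 1 < X)
  have hl : 0 < Real.log X := Real.log_pos hX1
  have hX0 : (0 : ℝ) < X := by linarith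
  rw [Real.sqrt_mul hX0.le, Real.sqrt_div hl.le, mul_comm, ← div_div]
  congr 1
  rw [div_eq_iff (Real.sqrt_ne_zero'.2 hl), Real.mul_self_sqrt hl.le]

lemma lm_abs (p : ℕ) : |lm X p| ≤ Real.sqrt (Real.log X / X) := by
  unfold lm
  split_ifs with h
  · have hl : 0 ≤ Real.log p := Real.log_natCast_nonneg p
    rw [abs_of_nonneg (div_nonneg hl (Real.sqrt_nonneg _)), ← log_div_sqrt hX]
    refine div_le_div_of_nonneg_right ?_ (Real.sqrt_nonneg _)
    rcases Nat.eq_zero_or_pos p with h0 | h0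
    · rw [h0, Nat.cast_zero, Real.log_zero]
      exact Real.log_natCast_nonneg X
    · exact Real.log_le_log (by exact_mod_cast h0) (by exact_mod_cast h)
  · rw [abs_zero]
    exact Real.sqrt_nonneg _

lemma lm_le_one (p : ℕ) : |lm X p| ≤ 1 := by
  refine (lm_abs hX p).trans ?_
  have hX1 : (1 : ℝ) < X := by exact_mod_cast (by omega : 1 < X)
  rw [Real.sqrt_le_one, div_le_one (by linarith)]
  have := Real.log_le_sub_one_of_pos (by linarith : (0 : ℝ) < X)
  linarith

lemma lm_le_sf (p : ℕ) : |lm X p| ≤ sf X := by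
  refine (lm_abs hX p).trans ?_
  have hl : 0 ≤ Real.log X := Real.log_natCast_nonneg X
  unfold sf
  nlinarith [Real.sqrt_nonneg (Real.log X / X)]

lemma sf_nonneg : 0 ≤ sf X := (abs_nonneg _).trans (lm_le_sf hX 0)

lemma sum_inv : ∑ p ∈ PP X, |lm X p| * (1 / p) ≤ sf X := by
  have h1 : ∑ p ∈ PP X, |lm X p| * (1 / (p : ℝ)) ≤ ∑ p ∈ PP X, Real.sqrt (Real.log X / X) * (1 / p) :=
    sum_le_sum fun p _ => mul_le_mul_of_nonneg_right (lm_abs hX p) (by positivity)
  have h2 : ∑ p ∈ PP X, (1 / (p : ℝ)) ≤ 1 + Real.log X := by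
    have h3 := harmonic_le_one_add_log X
    rw [harmonic_eq_sum_Icc] at h3
    push_cast at h3
    refine le_trans (sum_le_sum_of_subset_of_nonneg (filter_subset _ _) fun i _ _ => by positivity) (le_trans (le_of_eq ?_) h3)
    exact sum_congr rfl fun i _ => one_div _
  rw [← mul_sum] at h1
  refine h1.trans ?_
  unfold sf
  rw [mul_comm]
  exact mul_le_mul_of_nonneg_right h2 (Real.sqrt_nonneg _)

lemma sum_sq_inv : ∑ p ∈ PP X, lm X p ^ 2 * (1 / p) ≤ sf X := by
  refine le_trans (sum_le_sum fun p _ => ?_) (sum_inv hX)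
  refine mul_le_mul_of_nonneg_right ?_ (by positivity)
  have := lm_le_one hX p
  rw [← sq_abs]
  nlinarith [abs_nonneg (lm X p)]

lemma sum_cube : ∑ p ∈ PP X, |lm X p| ^ 3 ≤ sf X * ∑ p ∈ PP X, lm X p ^ 2 := by
  rw [mul_sum]
  refine sum_le_sum fun p _ => ?_
  have := lm_le_sf hX p
  have h2 : |lm X p| ^ 3 = |lm X p| * lm X p ^ 2 := by
    rw [pow_succ' |lm X p| 2, sq_abs]
  rw [h2]
  exact mul_le_mul_of_nonneg_right this (sq_nonneg _)

end

lemma lm_sum_eq {X a : ℕ} (hX : 2 ≤ X) (ha : a ≤ X) :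
    ∑ p ∈ PP a, lm X p ^ 2 = (∑ p ∈ PP a, Real.log p ^ 2) / (X * Real.log X) := by
  have hX1 : (1 : ℝ) < X := by exact_mod_cast (by omega : 1 < X)
  have hl : 0 < Real.log X := Real.log_pos hX1
  rw [sum_div]
  refine sum_congr rfl fun p hp => ?_
  have h1 : p ≤ X := ((mem_Icc.1 (mem_filter.1 hp).1).2).trans ha
  unfold lm
  rw [if_pos h1, div_pow, Real.sq_sqrt (by positivity)]

lemma theta_PP (a : ℕ) : Chebyshev.theta a = ∑ p ∈ PP a, Real.log p := by
  rw [Chebyshev.theta_eq_sum_primesLE_log]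
  refine sum_congr ?_ fun _ _ => rfl
  ext p
  rw [Nat.mem_primesLE]
  simp only [mem_filter, mem_Icc]
  constructor
  · rintro ⟨h1, h2⟩
    exact ⟨⟨h2.one_le, h1⟩, h2⟩
  · rintro ⟨⟨_, h1⟩, h2⟩
    exact ⟨h1, h2⟩

lemma card_PP (a : ℕ) : (PP a).card = Nat.primeCounting a := by
  rw [Nat.primeCounting, Nat.primeCounting', Nat.count_eq_card_filter_range]
  congr 1
  ext p
  simp only [mem_filter, mem_Icc, mem_range]
  constructor
  · rintro ⟨h1, h2⟩
    exact ⟨by omega, h2⟩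
  · rintro ⟨h1, h2⟩
    exact ⟨⟨h2.pos, by omega⟩, h2⟩

/-- the sum of the squares of the logarithms -/
theorem log_sq (s : ℝ) (hs : 0 < s) (hs1 : s ≤ 1) :
    Tendsto (fun X : ℕ => ∑ p ∈ PP ⌊s * X⌋₊, lm X p ^ 2) atTop (𝓝 s) := by
  have hsX : Tendsto (fun X : ℕ => s * (X : ℝ)) atTop atTop := tendsto_natCast_atTop_atTop.const_mul_atTop hs
  have hu : Tendsto (fun X : ℕ => Chebyshev.theta (s * X) / X) atTop (𝓝 s) := by
    have h1 := (Pool.Agent.Helper923.PNT.theta_div_tendsto.comp hsX).const_mul s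
    rw [mul_one] at h1
    refine h1.congr' ?_
    filter_upwards [eventually_ge_atTop 1] with X hX
    have hX1 : (0 : ℝ) < X := by exact_mod_cast hX
    show s * (Chebyshev.theta (s * X) / (s * X)) = _
    field_simp
  have hp : Tendsto (fun X : ℕ => (Nat.primeCounting ⌊s * (X : ℝ)⌋₊ : ℝ) * Real.log X / X) atTop (𝓝 s) := by
    have h1 := Pool.Agent.Helper923.PNT.pi_tendsto.comp hsX
    have h2 : Tendsto (fun X : ℕ => Real.log (s * X)) atTop atTop := Real.tendsto_log_atTop.comp hsX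
    have h3 : Tendsto (fun X : ℕ => 1 - Real.log s / Real.log (s * X)) atTop (𝓝 (1 - 0)) :=
      tendsto_const_nhds.sub (h2.const_div_atTop _)
    have h4 := (h1.const_mul s).mul h3
    rw [mul_one, sub_zero, mul_one] at h4
    refine h4.congr' ?_
    filter_upwards [eventually_ge_atTop 1, h2.eventually_gt_atTop 0] with X hX hl
    have hX1 : (0 : ℝ) < X := by exact_mod_cast hX
    have h5 : Real.log (s * X) = Real.log s + Real.log X := Real.log_mul hs.ne' hX1.ne'
    show s * ((Nat.primeCounting ⌊s * (X : ℝ)⌋₊ : ℝ) * Real.log (s * X) / (s * X)) * (1 - Real.log s / Real.log (s * X)) = _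
    have h6 : 1 - Real.log s / Real.log (s * X) = Real.log X / Real.log (s * X) := by
      rw [eq_div_iff hl.ne', sub_mul, div_mul_cancel₀ _ hl.ne', h5]
      ring
    rw [h6]
    field_simp
  have hlow : Tendsto (fun X : ℕ => (Chebyshev.theta (s * X) / X) ^ 2 / ((Nat.primeCounting ⌊s * (X : ℝ)⌋₊ : ℝ) * Real.log X / X)) atTop
      (𝓝 s) := by
    have h1 := (hu.pow 2).div hp hs.ne'
    have h2 : s ^ 2 / s = s := by
      field_simp
    rw [h2] at h1
    exact h1
  refine tendsto_of_tendsto_of_tendsto_of_le_of_le' hlow hu ?_ ?_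
  · filter_upwards [eventually_ge_atTop 2, hp.eventually (lt_mem_nhds hs)] with X hX hpos
    have hX1 : (1 : ℝ) < X := by exact_mod_cast (by omega : 1 < X)
    have hl : 0 < Real.log X := Real.log_pos hX1
    have hX0 : (0 : ℝ) < X := by linarith
    obtain ⟨a, ha⟩ : ∃ a : ℕ, a = ⌊s * (X : ℝ)⌋₊ := ⟨_, rfl⟩
    have haX : a ≤ X := by
      rw [ha]
      refine Nat.floor_le_of_le ?_
      nlinarith
    rw [← ha] at hpos ⊢
    rw [lm_sum_eq hX haX, Chebyshev.theta_eq_theta_coe_floor, ← ha, theta_PP]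
    have h1 : (∑ p ∈ PP a, Real.log p) ^ 2 ≤ Nat.primeCounting a * ∑ p ∈ PP a, Real.log p ^ 2 := by
      rw [← card_PP]
      exact sq_sum_le_card_mul_sum_sq
    obtain ⟨T, hT⟩ : ∃ T : ℝ, T = ∑ p ∈ PP a, Real.log p := ⟨_, rfl⟩
    obtain ⟨S, hS⟩ : ∃ S : ℝ, S = ∑ p ∈ PP a, Real.log p ^ 2 := ⟨_, rfl⟩
    obtain ⟨P, hP⟩ : ∃ P : ℝ, P = Nat.primeCounting a := ⟨_, rfl⟩
    rw [← hT, ← hS, ← hP] at h1
    rw [← hP] at hpos
    rw [← hT, ← hS, ← hP]
    rw [div_le_iff₀ hpos]
    have h2 : S / (X * Real.log X) * (P * Real.log X / X) = P * S / X ^ 2 := by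
      field_simp
    rw [h2, div_pow]
    exact div_le_div_of_nonneg_right h1 (by positivity)
  · filter_upwards [eventually_ge_atTop 2] with X hX
    have hX1 : (1 : ℝ) < X := by exact_mod_cast (by omega : 1 < X)
    have hl : 0 < Real.log X := Real.log_pos hX1
    have hX0 : (0 : ℝ) < X := by linarith
    obtain ⟨a, ha⟩ : ∃ a : ℕ, a = ⌊s * (X : ℝ)⌋₊ := ⟨_, rfl⟩
    have haX : a ≤ X := by
      rw [ha]
      refine Nat.floor_le_of_le ?_
      nlinarith
    rw [← ha, lm_sum_eq hX haX, Chebyshev.theta_eq_theta_coe_floor, ← ha, theta_PP, div_le_div_iff₀ (by positivity) hX0]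
    have h1 : ∑ p ∈ PP a, Real.log p ^ 2 ≤ (∑ p ∈ PP a, Real.log p) * Real.log X := by
      rw [sum_mul]
      refine sum_le_sum fun p hp => ?_
      have h2 : 1 ≤ p ∧ p ≤ a := mem_Icc.1 (mem_filter.1 hp).1
      rw [sq]
      refine mul_le_mul_of_nonneg_left ?_ (Real.log_natCast_nonneg p)
      exact Real.log_le_log (by exact_mod_cast h2.1) (by exact_mod_cast h2.2.trans haX)
    calc (∑ p ∈ PP a, Real.log p ^ 2) * X ≤ (∑ p ∈ PP a, Real.log p) * Real.log X * X := mul_le_mul_of_nonneg_right h1 hX0.le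
      _ = _ := by ring

end Q285NG
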