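import Pool.Agent.Q285.NG.Loc
import Pool.Agent.Q285.NG.Logs

/-!
# Families of hyperelliptic fibrations over the line with prescribed sections
-/

set_option autoImplicit false
set_option linter.unusedSectionVars false

namespace Q285NG

open Finset Polynomial
open Q282.CL

/-- The value of `F(t, x)` modulo `p`, for `F` in `ℤ[t][x]`. -/
noncomputable def val (p : ℕ) (F : ℤ[X][X]) (t x : ZMod p) : ZMod p :=
  F.eval₂ (eval₂RingHom (Int.castRingHom (ZMod p)) t) x

/-- The polynomial `∑ aᵢ tⁱ`. -/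
noncomputable def pol {D : ℕ} (a : Fin (D + 1) → ℤ) : ℤ[X] := ∑ i : Fin (D + 1), C (a i) * X ^ (i : ℕ)

/-- The polynomial `F₀ + ∏ⱼ (x - sⱼ(t)) · (u(t) + v(t) x)`, where `u` and `v` have the coefficients `c`. -/
noncomputable def fam {D r : ℕ} (F₀ : ℤ[X][X]) (s : Fin r → ℤ[X]) (c : Fin 2 × Fin (D + 1) → ℤ) : ℤ[X][X] :=
  F₀ + (∏ j, (X - C (s j))) * (C (pol fun i => c (0, i)) + C (pol fun i => c (1, i)) * X)

/-- The average over `t` modulo `p` of the traces `p - #{(x, y) : y² = F(t, x)}` of the fibres. -/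
noncomputable def avTr (p : ℕ) (F : ℤ[X][X]) : ℝ :=
  (∑ t ∈ range p, ((p : ℝ) - Nat.card {z : ZMod p × ZMod p // z.2 ^ 2 = val p F (t : ZMod p) z.1})) / p

section

variable {F : Type} [Field F] [Fintype F] [DecidableEq F]

lemma count_eq (hF : ringChar F ≠ 2) (f : F → F) :
    (Nat.card {z : F × F // z.2 ^ 2 = f z.1} : ℝ) = Fintype.card F + ∑ x, qc (f x) := by
  classical
  rw [Nat.card_eq_fintype_card, Fintype.card_subtype, card_filter, Fintype.sum_prod_type]
  have h1 : ∀ x : F, ((∑ y : F, (if y ^ 2 = f x then 1 else 0) : ℕ) : ℝ) = 1 + qc (f x) := by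
    intro x
    have h2 := quadraticChar_card_sqrts hF (f x)
    have h3 : (∑ y : F, (if y ^ 2 = f x then 1 else 0) : ℕ) = {y : F | y ^ 2 = f x}.toFinset.card := by
      rw [← card_filter]
      congr 1
      ext y
      simp
    rw [h3]
    unfold qc
    have h4 : (({y : F | y ^ 2 = f x}.toFinset.card : ℤ) : ℝ) = ((quadraticChar F (f x) + 1 : ℤ) : ℝ) := by rw [h2]
    push_cast at h4
    push_cast
    rw [h4, add_comm]
  push_cast
  push_cast at h1
  rw [sum_congr rfl fun x _ => h1 x, sum_add_distrib, sum_const, card_univ, nsmul_eq_mul, mul_one]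

variable {D : ℕ}

lemma HH_abs (r : ℕ) (R W : F → F → F) (c : Fin 2 × Fin (D + 1) → F) : |HH r R W c| ≤ r + Fintype.card F := by
  have hq : (0 : ℝ) < Fintype.card F := by exact_mod_cast Fintype.card_pos
  unfold HH
  refine (abs_sub _ _).trans ?_
  rw [abs_div, abs_of_pos hq, abs_of_nonneg (Nat.cast_nonneg r : (0 : ℝ) ≤ r)]
  refine add_le_add le_rfl ?_
  rw [div_le_iff₀ hq]
  refine (abs_sum_le_sum_abs _ _).trans ?_
  have h1 : ∀ t ∈ (univ : Finset F), |∑ x, qc (R t x + W t x * ((ev c t).1 + (ev c t).2 * x))| ≤ Fintype.card F := fun t _ => by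
    refine (abs_sum_le_sum_abs _ _).trans ((sum_le_sum fun x _ => qc_abs _).trans ?_)
    rw [sum_const, card_univ, nsmul_eq_mul, mul_one]
  refine (sum_le_sum h1).trans (le_of_eq ?_)
  rw [sum_const, card_univ, nsmul_eq_mul]

lemma bas_abs (R W : F → F) {r : ℕ} (hW : (univ.filter fun x => W x = 0).card ≤ r) : |bas R W| ≤ r := by
  unfold bas
  refine (abs_sum_le_sum_abs _ _).trans ((sum_le_sum fun x _ => qc_abs _).trans ?_)
  rw [sum_const, nsmul_eq_mul, mul_one]
  exact_mod_cast hW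

/-- the defect is small when the base locus consists of squares for most `t` -/
lemma dl_le (r : ℕ) (R W : F → F → F) (hW : ∀ t, (univ.filter fun x => W t x = 0).card ≤ r) (B : Finset F)
    (hB : ∀ t ∉ B, bas (R t) (W t) = r) : |dl r R W| ≤ 2 * r * B.card / Fintype.card F := by
  classical
  have hq : (0 : ℝ) < Fintype.card F := by exact_mod_cast Fintype.card_pos
  have h1 : dl r R W = (∑ t, (r - bas (R t) (W t))) / Fintype.card F := by
    unfold dl
    rw [sum_sub_distrib, sum_const, card_univ, nsmul_eq_mul, sub_div, mul_div_cancel_left₀ _ hq.ne']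
  rw [h1, abs_div, abs_of_pos hq]
  refine div_le_div_of_nonneg_right ?_ hq.le
  refine (abs_sum_le_sum_abs _ _).trans ?_
  have h2 : ∑ t, |(r : ℝ) - bas (R t) (W t)| = ∑ t ∈ B, |(r : ℝ) - bas (R t) (W t)| := by
    symm
    refine sum_subset (subset_univ _) fun t _ ht => ?_
    rw [hB t ht, sub_self, abs_zero]
  rw [h2]
  have h3 : ∀ t ∈ B, |(r : ℝ) - bas (R t) (W t)| ≤ 2 * r := fun t _ => by
    refine (abs_sub _ _).trans ?_
    rw [abs_of_nonneg (Nat.cast_nonneg r : (0 : ℝ) ≤ r)]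
    have := bas_abs (R t) (W t) (hW t)
    linarith
  refine (sum_le_sum h3).trans (le_of_eq ?_)
  rw [sum_const, nsmul_eq_mul]
  ring

end

section

variable {D r : ℕ} (F₀ : ℤ[X][X]) (s y : Fin r → ℤ[X])

/-- the values of the sections -/
noncomputable def sv (p : ℕ) (j : Fin r) (t : ZMod p) : ZMod p := eval₂RingHom (Int.castRingHom (ZMod p)) t (s j)

/-- the product -/
noncomputable def WW (p : ℕ) (t x : ZMod p) : ZMod p := ∏ j, (x - sv s p j t)

lemma val_pol (p : ℕ) (t : ZMod p) (a : Fin (D + 1) → ℤ) :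
    eval₂RingHom (Int.castRingHom (ZMod p)) t (pol a) = ∑ i : Fin (D + 1), (a i : ZMod p) * t ^ (i : ℕ) := by
  unfold pol
  rw [map_sum]
  refine sum_congr rfl fun i _ => ?_
  rw [map_mul, map_pow, coe_eval₂RingHom, eval₂_C, eval₂_X]
  rfl

lemma val_fam (p : ℕ) (c : Fin 2 × Fin (D + 1) → ℤ) (t x : ZMod p) :
    val p (fam F₀ s c) t x = val p F₀ t x + WW s p t x * ((ev (fun i => (c i : ZMod p)) t).1 + (ev (fun i => (c i : ZMod p)) t).2 * x) := by
  unfold val fam WW sv ev
  rw [eval₂_add, eval₂_mul, eval₂_add, eval₂_mul, eval₂_C, eval₂_C, eval₂_X, eval₂_finsetProd, val_pol, val_pol]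
  congr 2
  refine prod_congr rfl fun j _ => ?_
  rw [eval₂_sub, eval₂_X, eval₂_C]

/-- the local function -/
noncomputable def HP (p : ℕ) (u : Fin 2 × Fin (D + 1) → ZMod p) : ℝ :=
  r + (∑ t ∈ range p, ((p : ℝ) - Nat.card {z : ZMod p × ZMod p //
    z.2 ^ 2 = val p F₀ (t : ZMod p) z.1 + WW s p (t : ZMod p) z.1 * ((ev u (t : ZMod p)).1 + (ev u (t : ZMod p)).2 * z.1)})) / p

lemma HP_fam (p : ℕ) (c : Fin 2 × Fin (D + 1) → ℤ) : HP F₀ s p (fun i => (c i : ZMod p)) = r + avTr p (fam F₀ s c) := by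
  unfold HP avTr
  simp only [val_fam]

lemma sum_range (p : ℕ) [hp : Fact p.Prime] (f : ZMod p → ℝ) : ∑ t ∈ range p, f (t : ZMod p) = ∑ t : ZMod p, f t := by
  refine sum_bij (fun t _ => (t : ZMod p)) (fun _ _ => mem_univ _) ?_ ?_ fun _ _ => rfl
  · intro a ha b hb hab
    have := (ZMod.natCast_eq_natCast_iff' a b p).1 hab
    rwa [Nat.mod_eq_of_lt (mem_range.1 ha), Nat.mod_eq_of_lt (mem_range.1 hb)] at this
  · intro b _
    exact ⟨b.val, mem_range.2 (ZMod.val_lt b), ZMod.natCast_zmod_val b⟩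

lemma HP_eq (p : ℕ) [hp : Fact p.Prime] (h2 : p ≠ 2) (u : Fin 2 × Fin (D + 1) → ZMod p) :
    HP F₀ s p u = HH r (val p F₀) (WW s p) u := by
  have hF : ringChar (ZMod p) ≠ 2 := by
    rw [ZMod.ringChar_zmod_n]
    exact h2
  have h1 := sum_range p fun t => (p : ℝ) - Nat.card {z : ZMod p × ZMod p //
    z.2 ^ 2 = val p F₀ t z.1 + WW s p t z.1 * ((ev u t).1 + (ev u t).2 * z.1)}
  unfold HP HH
  rw [h1, ZMod.card, sub_eq_add_neg, ← neg_div, ← sum_neg_distrib]
  congr 2
  refine sum_congr rfl fun t _ => ?_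
  have h3 := count_eq hF fun x => val p F₀ t x + WW s p t x * ((ev u t).1 + (ev u t).2 * x)
  rw [ZMod.card] at h3
  rw [h3]
  ring

lemma HP_abs (p : ℕ) [hp : Fact p.Prime] (u : Fin 2 × Fin (D + 1) → ZMod p) : |HP F₀ s p u| ≤ r + p ^ 2 := by
  have hp0 : (0 : ℝ) < p := by exact_mod_cast hp.out.pos
  have hp1 : (1 : ℝ) ≤ p := by exact_mod_cast hp.out.one_le
  unfold HP
  refine (abs_add_le _ _).trans ?_
  rw [abs_of_nonneg (Nat.cast_nonneg r : (0 : ℝ) ≤ r)]
  refine add_le_add le_rfl ?_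
  rw [abs_div, abs_of_pos hp0, div_le_iff₀ hp0]
  refine (abs_sum_le_sum_abs _ _).trans ?_
  have h1 : ∀ t ∈ range p, |(p : ℝ) - Nat.card {z : ZMod p × ZMod p //
    z.2 ^ 2 = val p F₀ (t : ZMod p) z.1 + WW s p (t : ZMod p) z.1 * ((ev u (t : ZMod p)).1 + (ev u (t : ZMod p)).2 * z.1)}| ≤ (p : ℝ) ^ 2 := by
    intro t _
    have h2 := Finite.card_subtype_le fun z : ZMod p × ZMod p =>
      z.2 ^ 2 = val p F₀ (t : ZMod p) z.1 + WW s p (t : ZMod p) z.1 * ((ev u (t : ZMod p)).1 + (ev u (t : ZMod p)).2 * z.1)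
    rw [Nat.card_prod, Nat.card_zmod] at h2
    have h3 : (Nat.card {z : ZMod p × ZMod p // z.2 ^ 2 = val p F₀ (t : ZMod p) z.1 +
        WW s p (t : ZMod p) z.1 * ((ev u (t : ZMod p)).1 + (ev u (t : ZMod p)).2 * z.1)} : ℝ) ≤ p * p := by exact_mod_cast h2
    rw [abs_le]
    constructor
    · nlinarith
    · have : (0 : ℝ) ≤ Nat.card {z : ZMod p × ZMod p // z.2 ^ 2 = val p F₀ (t : ZMod p) z.1 +
        WW s p (t : ZMod p) z.1 * ((ev u (t : ZMod p)).1 + (ev u (t : ZMod p)).2 * z.1)} := Nat.cast_nonneg _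
      nlinarith
  refine (sum_le_sum h1).trans (le_of_eq ?_)
  rw [sum_const, card_range, nsmul_eq_mul]
  ring

lemma WW_card (p : ℕ) [hp : Fact p.Prime] (t : ZMod p) : (univ.filter fun x => WW s p t x = 0).card ≤ r := by
  classical
  have h1 : (univ.filter fun x => WW s p t x = 0) ⊆ univ.image fun j => sv s p j t := by
    intro x hx
    have h2 := (mem_filter.1 hx).2
    unfold WW at h2
    obtain ⟨j, _, hj⟩ := prod_eq_zero_iff.1 h2
    exact mem_image.2 ⟨j, mem_univ _, (sub_eq_zero.1 hj).symm⟩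
  refine (card_le_card h1).trans (card_image_le.trans ?_)
  rw [card_univ, Fintype.card_fin]

/-- the polynomial of the bad parameters -/
noncomputable def hb : ℤ[X] := (∏ i : Fin r × Fin r, if i.1 = i.2 then 1 else (s i.1 - s i.2)) * ∏ j, y j

variable {F₀ s y}

lemma hb_ne (hs : Function.Injective s) (hy : ∀ j, y j ≠ 0) : hb s y ≠ 0 := by
  unfold hb
  refine mul_ne_zero (prod_ne_zero_iff.2 fun i _ => ?_) (prod_ne_zero_iff.2 fun j _ => hy j)
  split_ifs with h
  · exact one_ne_zero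
  · exact sub_ne_zero.2 fun h1 => h (hs h1)

lemma bas_good (hq : ∀ j, F₀.eval (s j) = y j ^ 2) (p : ℕ) [hp : Fact p.Prime] (t : ZMod p)
    (ht : eval₂RingHom (Int.castRingHom (ZMod p)) t (hb s y) ≠ 0) : bas (val p F₀ t) (WW s p t) = r := by
  classical
  unfold hb at ht
  rw [map_mul, map_prod, map_prod] at ht
  have h1 := prod_ne_zero_iff.1 (left_ne_zero_of_mul ht)
  have h2 := prod_ne_zero_iff.1 (right_ne_zero_of_mul ht)
  have hinj : Function.Injective fun j => sv s p j t := by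
    intro i j hij
    by_contra hne
    have h3 := h1 (i, j) (mem_univ _)
    rw [if_neg hne, map_sub] at h3
    exact h3 (sub_eq_zero.2 hij)
  have h3 : (univ.filter fun x => WW s p t x = 0) = univ.image fun j => sv s p j t := by
    ext x
    rw [mem_filter, mem_image]
    unfold WW
    rw [prod_eq_zero_iff]
    constructor
    · rintro ⟨_, j, hj, h⟩
      exact ⟨j, hj, (sub_eq_zero.1 h).symm⟩
    · rintro ⟨j, hj, h⟩
      exact ⟨mem_univ _, j, hj, sub_eq_zero.2 h.symm⟩
  unfold bas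
  rw [h3, sum_image fun i _ j _ h => hinj h]
  have h4 : ∀ j ∈ (univ : Finset (Fin r)), qc (val p F₀ t (sv s p j t)) = 1 := by
    intro j _
    unfold val sv
    rw [eval₂_at_apply, hq j, map_pow]
    unfold qc
    rw [map_pow, quadraticChar_sq_one (h2 j (mem_univ _))]
    norm_num
  rw [sum_congr rfl h4, sum_const, card_univ, Fintype.card_fin, nsmul_eq_mul, mul_one]

/-- the constant -/
noncomputable def KK (s y : Fin r → ℤ[X]) : ℝ := 2 * r * ((hb s y).natDegree + |((hb s y).leadingCoeff : ℝ)|)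

lemma KK_nonneg : 0 ≤ KK s y := by
  unfold KK
  positivity

lemma dl_fam (hs : Function.Injective s) (hy : ∀ j, y j ≠ 0) (hq : ∀ j, F₀.eval (s j) = y j ^ 2) (p : ℕ) [hp : Fact p.Prime] :
    |dl r (val p F₀) (WW s p)| ≤ KK s y / p := by
  classical
  have hp0 : (0 : ℝ) < p := by exact_mod_cast hp.out.pos
  have hne := hb_ne hs hy
  by_cases h0 : (hb s y).map (Int.castRingHom (ZMod p)) = 0
  · -- all the parameters can be bad
    have h1 : ((hb s y).leadingCoeff : ZMod p) = 0 := by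
      have h2 := congrArg (fun f => f.coeff (hb s y).natDegree) h0
      simp only [coeff_map, coeff_zero] at h2
      exact h2
    rw [ZMod.intCast_zmod_eq_zero_iff_dvd] at h1
    have h2 : (p : ℝ) ≤ |((hb s y).leadingCoeff : ℝ)| := by
      have h3 := Int.le_of_dvd (abs_pos.2 (leadingCoeff_ne_zero.2 hne)) ((dvd_abs _ _).2 h1)
      exact_mod_cast h3
    refine (dl_le r (val p F₀) (WW s p) (WW_card s p) univ fun t ht => absurd (mem_univ t) ht).trans ?_
    rw [card_univ, ZMod.card]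
    refine div_le_div_of_nonneg_right ?_ hp0.le
    unfold KK
    refine mul_le_mul_of_nonneg_left ?_ (by positivity)
    have : (0 : ℝ) ≤ (hb s y).natDegree := Nat.cast_nonneg _
    linarith
  · have h1 : ∀ t ∉ ((hb s y).map (Int.castRingHom (ZMod p))).roots.toFinset, bas (val p F₀ t) (WW s p t) = r := by
      intro t ht
      refine bas_good hq p t fun h2 => ht ?_
      rw [Multiset.mem_toFinset, mem_roots h0, IsRoot.def, eval_map]
      exact h2
    refine (dl_le r (val p F₀) (WW s p) (WW_card s p) _ h1).trans ?_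
    rw [ZMod.card]
    refine div_le_div_of_nonneg_right ?_ hp0.le
    unfold KK
    refine mul_le_mul_of_nonneg_left ?_ (by positivity)
    have h2 : (((hb s y).map (Int.castRingHom (ZMod p))).roots.toFinset.card : ℝ) ≤ (hb s y).natDegree := by
      exact_mod_cast (Multiset.toFinset_card_le _).trans ((card_roots' _).trans natDegree_map_le)
    have : (0 : ℝ) ≤ |((hb s y).leadingCoeff : ℝ)| := abs_nonneg _
    linarith

end

end Q285NG
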