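import Pool.Agent.Q285.NG.Brw

/-!
# Values of random polynomials at few points are independent; the first four moments of sums
-/

set_option autoImplicit false
set_option linter.unusedSectionVars false

namespace Q285NG

open Finset Polynomial
open Q282.CL

/-- averages and surjective homomorphisms -/
lemma av_hom {A B : Type} [AddGroup A] [AddGroup B] [Fintype A] [Fintype B] [DecidableEq B] (φ : A →+ B) (hφ : Function.Surjective φ)
    (G : B → ℝ) : av (fun a => G (φ a)) = av G := by
  classical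
  obtain ⟨m, hm⟩ : ∃ m : ℕ, ∀ b : B, (univ.filter fun a => φ a = b).card = m :=
    ⟨(univ.filter fun a => φ a = 0).card, fun b => AddMonoidHom.card_fiber_eq_of_mem_range φ (hφ b) (hφ 0)⟩
  have hA : (Fintype.card A : ℝ) = m * Fintype.card B := by
    have h1 : Fintype.card A = ∑ b : B, (univ.filter fun a => φ a = b).card := by
      rw [← card_univ]
      exact card_eq_sum_card_fiberwise fun a _ => mem_univ (φ a)
    rw [h1, sum_congr rfl fun b _ => hm b, sum_const, card_univ, smul_eq_mul]
    push_cast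
    ring
  have hm0 : (m : ℝ) ≠ 0 := by
    intro h0
    rw [h0, zero_mul] at hA
    have : 0 < Fintype.card A := Fintype.card_pos
    have : (0 : ℝ) < Fintype.card A := by exact_mod_cast this
    linarith
  have hs : ∑ a : A, G (φ a) = m * ∑ b : B, G b := by
    rw [← sum_fiberwise_of_maps_to (fun a _ => mem_univ (φ a)) (fun a => G (φ a)), mul_sum]
    refine sum_congr rfl fun b _ => ?_
    have h1 : ∀ a ∈ univ.filter (fun a => φ a = b), G (φ a) = G b := fun a ha => by rw [(mem_filter.1 ha).2]
    rw [sum_congr rfl h1, sum_const, hm b, nsmul_eq_mul]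
  unfold av
  rw [hs, hA, mul_div_mul_left _ _ hm0]

/-- the values at `t` of the two polynomials with the coefficients `c` -/
def ev {F : Type} [CommRing F] {D : ℕ} (c : Fin 2 × Fin (D + 1) → F) (t : F) : F × F :=
  (∑ i : Fin (D + 1), c (0, i) * t ^ (i : ℕ), ∑ i : Fin (D + 1), c (1, i) * t ^ (i : ℕ))

section

variable {F : Type} [Field F] [Fintype F] [DecidableEq F] {D : ℕ}

/-- the values as a homomorphism -/
def evh (S : Finset F) : (Fin 2 × Fin (D + 1) → F) →+ (S → F × F) where
  toFun c t := ev c t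
  map_zero' := by
    funext t
    unfold ev
    simp
  map_add' c c' := by
    funext t
    unfold ev
    simp [add_mul, sum_add_distrib]

lemma evh_surj (S : Finset F) (hS : S.card ≤ D + 1) : Function.Surjective (evh (D := D) S) := by
  classical
  intro z
  have key : ∀ r : F → F, ∃ P : F[X], (∀ t ∈ S, P.eval t = r t) ∧ P.natDegree < D + 1 := by
    intro r
    refine ⟨Lagrange.interpolate S id r, fun t ht => Lagrange.eval_interpolate_at_node r (Set.injOn_id _) ht, ?_⟩
    have h1 := Lagrange.degree_interpolate_lt r (Set.injOn_id (S : Set F))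
    by_cases h0 : Lagrange.interpolate S id r = 0
    · rw [h0, natDegree_zero]
      omega
    · rw [natDegree_lt_iff_degree_lt h0]
      exact lt_of_lt_of_le h1 (by exact_mod_cast hS)
  obtain ⟨P, hP1, hP2⟩ := key fun t => if h : t ∈ S then (z ⟨t, h⟩).1 else 0
  obtain ⟨Q, hQ1, hQ2⟩ := key fun t => if h : t ∈ S then (z ⟨t, h⟩).2 else 0
  refine ⟨fun j => if j.1 = 0 then P.coeff j.2 else Q.coeff j.2, ?_⟩
  funext t
  have h1 := hP1 t t.2
  have h2 := hQ1 t t.2
  rw [dif_pos t.2] at h1 h2
  rw [eval_eq_sum_range' hP2, ← Fin.sum_univ_eq_sum_range (fun i => P.coeff i * (t : F) ^ i)] at h1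
  rw [eval_eq_sum_range' hQ2, ← Fin.sum_univ_eq_sum_range (fun i => Q.coeff i * (t : F) ^ i)] at h2
  refine Prod.ext ?_ ?_
  · show ∑ i : Fin (D + 1), (if (0 : Fin 2) = 0 then P.coeff i else Q.coeff i) * (t : F) ^ (i : ℕ) = _
    rw [← h1]
    exact sum_congr rfl fun i _ => by rw [if_pos rfl]
  · show ∑ i : Fin (D + 1), (if (1 : Fin 2) = 0 then P.coeff i else Q.coeff i) * (t : F) ^ (i : ℕ) = _
    rw [← h2]
    exact sum_congr rfl fun i _ => by rw [if_neg (by decide)]

/-- the values at few points are independent -/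
lemma av_ind (S : Finset F) (hS : S.card ≤ D + 1) (f : F → F × F → ℝ) :
    av (fun c : Fin 2 × Fin (D + 1) → F => ∏ t ∈ S, f t (ev c t)) = ∏ t ∈ S, av (f t) := by
  classical
  have h1 : (fun c : Fin 2 × Fin (D + 1) → F => ∏ t ∈ S, f t (ev c t)) =
      fun c => (fun z : S → F × F => ∏ t : S, f t (z t)) (evh S c) := by
    funext c
    show _ = ∏ t : S, f t (ev c t)
    exact (Finset.prod_coe_sort S fun t => f t (ev c t)).symm
  rw [h1, av_hom (evh S) (evh_surj S hS) (fun z : S → F × F => ∏ t : S, f t (z t)), av_pi (fun (t : S) => f t)]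
  exact Finset.prod_coe_sort S fun t => av (f t)

/-- the value at `a` is independent of the values at few other points -/
lemma av_sep (a : F) (g : F × F → ℝ) (ψ : F → F × F → ℝ) {m : ℕ} (hm : m ≤ D) (b : Fin m → F) (hb : ∀ j, b j ≠ a) :
    av (fun c : Fin 2 × Fin (D + 1) → F => g (ev c a) * ∏ j, ψ (b j) (ev c (b j))) =
      av g * av (fun c : Fin 2 × Fin (D + 1) → F => ∏ j, ψ (b j) (ev c (b j))) := by
  classical
  obtain ⟨S, hS⟩ : ∃ S : Finset F, S = univ.image b := ⟨_, rfl⟩
  have hScard : S.card ≤ m := by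
    rw [hS]
    exact card_image_le.trans (by rw [card_univ, Fintype.card_fin])
  have haS : a ∉ S := by
    rw [hS, mem_image]
    rintro ⟨j, _, hj⟩
    exact hb j hj
  obtain ⟨e, he⟩ : ∃ e : F → ℕ, ∀ t, e t = (univ.filter fun j => b j = t).card := ⟨_, fun _ => rfl⟩
  have hfib : ∀ h : F → ℝ, ∏ j, h (b j) = ∏ t ∈ S, h t ^ e t := by
    intro h
    have h1 : ∀ j ∈ (univ : Finset (Fin m)), b j ∈ S := fun j _ => by
      rw [hS]
      exact mem_image_of_mem b (mem_univ j)
    rw [← prod_fiberwise_of_maps_to h1]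
    refine prod_congr rfl fun t _ => ?_
    have h2 : ∀ j ∈ univ.filter (fun j => b j = t), h (b j) = h t := fun j hj => by rw [(mem_filter.1 hj).2]
    rw [prod_congr rfl h2, prod_const, he]
  have h1 : (fun c : Fin 2 × Fin (D + 1) → F => ∏ j, ψ (b j) (ev c (b j))) =
      fun c => ∏ t ∈ S, (fun t z => ψ t z ^ e t) t (ev c t) := by
    funext c
    exact hfib fun t => ψ t (ev c t)
  have h2 : (fun c : Fin 2 × Fin (D + 1) → F => g (ev c a) * ∏ j, ψ (b j) (ev c (b j))) =
      fun c => ∏ t ∈ insert a S, (fun t z => if t = a then g z else ψ t z ^ e t) t (ev c t) := by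
    funext c
    rw [prod_insert haS, hfib fun t => ψ t (ev c t)]
    show _ = (if a = a then g (ev c a) else ψ a (ev c a) ^ e a) * _
    rw [if_pos rfl]
    congr 1
    refine prod_congr rfl fun t ht => ?_
    show _ = if t = a then g (ev c t) else ψ t (ev c t) ^ e t
    have hta : t ≠ a := fun h => haS (h ▸ ht)
    rw [if_neg hta]
  rw [h1, h2, av_ind S (by omega) (fun t z => ψ t z ^ e t),
    av_ind (insert a S) (by rw [card_insert_of_notMem haS]; omega) (fun t z => if t = a then g z else ψ t z ^ e t), prod_insert haS]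
  congr 1
  · refine congrArg av ?_
    funext z
    rw [if_pos rfl]
  · refine prod_congr rfl fun t ht => congrArg av ?_
    funext z
    have hta : t ≠ a := fun h => haS (h ▸ ht)
    show (if t = a then g z else ψ t z ^ e t) = _
    rw [if_neg hta]

/-- the sum over the points of `A` -/
noncomputable def sm (A : Finset F) (ψ : F → F × F → ℝ) (c : Fin 2 × Fin (D + 1) → F) : ℝ := ∑ t ∈ A, ψ t (ev c t)

lemma sm_sep (a : F) (g : F × F → ℝ) (ψ : F → F × F → ℝ) {m : ℕ} (hm : m ≤ D) (A : Finset F) (ha : a ∉ A) :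
    av (fun c : Fin 2 × Fin (D + 1) → F => g (ev c a) * sm A ψ c ^ m) =
      av g * av (fun c : Fin 2 × Fin (D + 1) → F => sm A ψ c ^ m) := by
  classical
  have hexp : ∀ c : Fin 2 × Fin (D + 1) → F, sm A ψ c ^ m = ∑ b ∈ Fintype.piFinset fun _ : Fin m => A, ∏ j, ψ (b j) (ev c (b j)) := by
    intro c
    have h2 := prod_univ_sum (fun _ : Fin m => A) (fun _ t => ψ t (ev c t))
    rw [prod_const, card_univ, Fintype.card_fin] at h2
    unfold sm
    rw [h2]
  simp only [hexp, mul_sum]
  rw [av_sum, av_sum, mul_sum]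
  refine sum_congr rfl fun b hb => ?_
  rw [Fintype.mem_piFinset] at hb
  exact av_sep a g ψ hm b fun j h => ha (h ▸ hb j)

/-- the mean of a function of one value -/
lemma av_one (a : F) (g : F × F → ℝ) : av (fun c : Fin 2 × Fin (D + 1) → F => g (ev c a)) = av g := by
  have h1 := av_ind (D := D) {a} (by simp) fun _ => g
  simp only [prod_singleton] at h1
  exact h1

lemma sm_one (A : Finset F) (ψ : F → F × F → ℝ) (h0 : ∀ t, av (ψ t) = 0) : av (fun c : Fin 2 × Fin (D + 1) → F => sm A ψ c) = 0 := by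
  unfold sm
  rw [av_sum]
  exact sum_eq_zero fun t _ => by rw [av_one, h0]

lemma sm_two (hD : 3 ≤ D) (A : Finset F) (ψ : F → F × F → ℝ) (h0 : ∀ t, av (ψ t) = 0) :
    av (fun c : Fin 2 × Fin (D + 1) → F => sm A ψ c ^ 2) = ∑ t ∈ A, av (fun z => ψ t z ^ 2) := by
  classical
  induction A using Finset.induction_on with
  | empty =>
    simp only [sm, sum_empty]
    rw [zero_pow two_ne_zero, av_const]
  | insert a A ha ih =>
    have h1 : (fun c : Fin 2 × Fin (D + 1) → F => sm (insert a A) ψ c ^ 2) =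
        fun c => ψ a (ev c a) ^ 2 + (2 * (ψ a (ev c a) * sm A ψ c ^ 1) + sm A ψ c ^ 2) := by
      funext c
      have : sm (insert a A) ψ c = ψ a (ev c a) + sm A ψ c := by
        unfold sm
        rw [sum_insert ha]
      rw [this]
      ring
    rw [h1, av_add, av_add, av_mul, sm_sep a (ψ a) ψ (by omega) A ha, h0, av_one a (fun z => ψ a z ^ 2), ih, sum_insert ha]
    ring

lemma sm_four (hD : 3 ≤ D) (A : Finset F) (ψ : F → F × F → ℝ) (h0 : ∀ t, av (ψ t) = 0) :
    av (fun c : Fin 2 × Fin (D + 1) → F => sm A ψ c ^ 4) ≤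
      ∑ t ∈ A, av (fun z => ψ t z ^ 4) + 3 * (∑ t ∈ A, av (fun z => ψ t z ^ 2)) ^ 2 := by
  classical
  induction A using Finset.induction_on with
  | empty =>
    simp only [sm, sum_empty]
    rw [zero_pow (by norm_num), av_const]
    norm_num
  | insert a A ha ih =>
    have h1 : (fun c : Fin 2 × Fin (D + 1) → F => sm (insert a A) ψ c ^ 4) =
        fun c => ψ a (ev c a) ^ 4 + (4 * (ψ a (ev c a) ^ 3 * sm A ψ c ^ 1) + (6 * (ψ a (ev c a) ^ 2 * sm A ψ c ^ 2) +
          (4 * (ψ a (ev c a) * sm A ψ c ^ 3) + sm A ψ c ^ 4))) := by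
      funext c
      have : sm (insert a A) ψ c = ψ a (ev c a) + sm A ψ c := by
        unfold sm
        rw [sum_insert ha]
      rw [this]
      ring
    have h2 : av (fun c : Fin 2 × Fin (D + 1) → F => sm A ψ c ^ 1) = 0 := by
      simp only [pow_one]
      exact sm_one A ψ h0
    rw [h1, av_add, av_add, av_add, av_add, av_mul, av_mul, av_mul, sm_sep a (fun z => ψ a z ^ 3) ψ (by omega) A ha,
      sm_sep a (fun z => ψ a z ^ 2) ψ (by omega) A ha, sm_sep a (ψ a) ψ (by omega) A ha, h0, h2,
      av_one a (fun z => ψ a z ^ 4), sm_two hD A ψ h0, sum_insert ha, sum_insert ha]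
    have h3 := sq_nonneg (av (fun z => ψ a z ^ 2))
    nlinarith

end

end Q285NG
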