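import Pool.Agent.Q285.NG.Ind

/-!
# The local moments of the fibre averages of hyperelliptic fibrations
-/

set_option autoImplicit false
set_option linter.unusedSectionVars false

namespace Q285NG

open Finset
open Q282.CL

section

variable {F : Type} [Field F] [Fintype F] [DecidableEq F]

/-- the quadratic character as a real number -/
def qc (x : F) : ℝ := (quadraticChar F x : ℝ)

lemma qc_abs (x : F) : |qc x| ≤ 1 := by
  unfold qc
  rcases quadraticChar_isQuadratic F x with h | h | h <;> rw [h] <;> norm_num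

lemma qc_sum (hF : ringChar F ≠ 2) : ∑ x : F, qc x = 0 := by
  unfold qc
  have := quadraticChar_sum_zero hF
  exact_mod_cast this

lemma qc_sq_sum : ∑ x : F, qc x ^ 2 = Fintype.card F - 1 := by
  have h1 : ∀ x : F, qc x ^ 2 = if x = 0 then 0 else 1 := by
    intro x
    unfold qc
    split_ifs with h
    · rw [h, quadraticChar_zero]
      norm_num
    · have := quadraticChar_sq_one (F := F) h
      exact_mod_cast this
  simp only [h1]
  rw [← Finset.add_sum_erase univ (fun x : F => if x = 0 then (0 : ℝ) else 1) (mem_univ 0), if_pos rfl, zero_add]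
  have h2 : ∀ x ∈ univ.erase (0 : F), (if x = 0 then (0 : ℝ) else 1) = 1 := fun x hx => if_neg (ne_of_mem_erase hx)
  rw [sum_congr rfl h2, sum_const, card_erase_of_mem (mem_univ _), card_univ, nsmul_eq_mul, mul_one,
    Nat.cast_sub Fintype.card_pos, Nat.cast_one]

/-- the sum over the points with `W x ≠ 0` -/
noncomputable def psi (R W : F → F) (z : F × F) : ℝ := ∑ x ∈ univ.filter (fun x => W x ≠ 0), qc (R x + W x * (z.1 + z.2 * x))

/-- the contribution of the base locus -/
noncomputable def bas (R W : F → F) : ℝ := ∑ x ∈ univ.filter (fun x => W x = 0), qc (R x)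

lemma phi_eq (R W : F → F) (z : F × F) : ∑ x, qc (R x + W x * (z.1 + z.2 * x)) = bas R W + psi R W z := by
  unfold bas psi
  rw [← sum_filter_add_sum_filter_not univ (fun x => W x = 0)]
  congr 1
  refine sum_congr rfl fun x hx => ?_
  rw [(mem_filter.1 hx).2, zero_mul, add_zero]

lemma psi_abs (R W : F → F) (z : F × F) : |psi R W z| ≤ Fintype.card F := by
  unfold psi
  refine (abs_sum_le_sum_abs _ _).trans ((sum_le_sum fun x _ => qc_abs _).trans ?_)
  rw [sum_const, nsmul_eq_mul, mul_one]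
  exact_mod_cast (card_le_card (filter_subset _ _)).trans card_univ.le

/-- one value -/
lemma av_val (a w x : F) (hw : w ≠ 0) (f : F → ℝ) : av (fun z : F × F => f (a + w * (z.1 + z.2 * x))) = (∑ y, f y) / Fintype.card F := by
  have hq : (Fintype.card F : ℝ) ≠ 0 := by exact_mod_cast Fintype.card_ne_zero
  unfold av
  rw [Fintype.sum_prod_type_right, Fintype.card_prod]
  have h1 : ∀ v : F, ∑ u : F, f (a + w * (u + v * x)) = ∑ y, f y := by
    intro v
    refine Function.Bijective.sum_comp (e := fun u : F => a + w * (u + v * x)) ?_ f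
    refine (Finite.injective_iff_bijective).1 fun u u' huu => ?_
    have h2 : w * (u + v * x) = w * (u' + v * x) := add_left_cancel huu
    exact add_right_cancel (mul_left_cancel₀ hw h2)
  show (∑ v : F, ∑ u : F, f (a + w * (u + v * x))) / _ = _
  rw [sum_congr rfl fun v _ => h1 v, sum_const, card_univ, nsmul_eq_mul]
  push_cast
  field_simp

/-- two values -/
lemma av_val2 (a w x a' w' x' : F) (hw : w ≠ 0) (hw' : w' ≠ 0) (hx : x ≠ x') (f g : F → ℝ) :
    av (fun z : F × F => f (a + w * (z.1 + z.2 * x)) * g (a' + w' * (z.1 + z.2 * x'))) =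
      (∑ y, f y) * (∑ y, g y) / (Fintype.card F : ℝ) ^ 2 := by
  unfold av
  have h1 : ∑ z : F × F, f (a + w * (z.1 + z.2 * x)) * g (a' + w' * (z.1 + z.2 * x')) = ∑ y : F × F, f y.1 * g y.2 := by
    refine Function.Bijective.sum_comp (e := fun z : F × F => (a + w * (z.1 + z.2 * x), a' + w' * (z.1 + z.2 * x')))
      ?_ (fun y : F × F => f y.1 * g y.2)
    refine (Finite.injective_iff_bijective).1 fun z z' hzz => ?_
    simp only [Prod.mk.injEq] at hzz
    have h2 := mul_left_cancel₀ hw (add_left_cancel hzz.1)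
    have h3 := mul_left_cancel₀ hw' (add_left_cancel hzz.2)
    have h4 : (z.2 - z'.2) * (x - x') = 0 := by linear_combination h2 - h3
    have h5 : z.2 = z'.2 := by
      rcases mul_eq_zero.1 h4 with h | h
      · exact sub_eq_zero.1 h
      · exact absurd (sub_eq_zero.1 h) hx
    have h6 : z.1 = z'.1 := by
      rw [h5] at h2
      exact add_right_cancel h2
    exact Prod.ext h6 h5
  rw [h1, Fintype.card_prod, Fintype.sum_prod_type, sum_mul_sum]
  push_cast
  rw [sq]

lemma psi_one (hF : ringChar F ≠ 2) (R W : F → F) : av (psi R W) = 0 := by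
  have h1 : psi R W = fun z => ∑ x ∈ univ.filter (fun x => W x ≠ 0), qc (R x + W x * (z.1 + z.2 * x)) := rfl
  rw [h1, av_sum]
  refine sum_eq_zero fun x hx => ?_
  rw [av_val (R x) (W x) x (mem_filter.1 hx).2 qc, qc_sum hF, zero_div]

lemma psi_two (hF : ringChar F ≠ 2) (R W : F → F) :
    av (fun z => psi R W z ^ 2) = (univ.filter fun x => W x ≠ 0).card * ((Fintype.card F - 1) / Fintype.card F) := by
  have h1 : (fun z => psi R W z ^ 2) = fun z => ∑ x ∈ univ.filter (fun x => W x ≠ 0), ∑ x' ∈ univ.filter (fun x => W x ≠ 0),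
      qc (R x + W x * (z.1 + z.2 * x)) * qc (R x' + W x' * (z.1 + z.2 * x')) := by
    funext z
    unfold psi
    rw [sq, sum_mul_sum]
  rw [h1, av_sum]
  have h2 : ∀ x ∈ univ.filter (fun x => W x ≠ 0), av (fun z : F × F => ∑ x' ∈ univ.filter (fun x => W x ≠ 0),
      qc (R x + W x * (z.1 + z.2 * x)) * qc (R x' + W x' * (z.1 + z.2 * x'))) = (Fintype.card F - 1) / Fintype.card F := by
    intro x hx
    rw [av_sum, sum_eq_single_of_mem x hx]
    · have h3 : (fun z : F × F => qc (R x + W x * (z.1 + z.2 * x)) * qc (R x + W x * (z.1 + z.2 * x))) =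
          fun z => (fun y => qc y ^ 2) (R x + W x * (z.1 + z.2 * x)) := by
        funext z
        show _ = qc _ ^ 2
        rw [sq]
      rw [h3, av_val (R x) (W x) x (mem_filter.1 hx).2 (fun y => qc y ^ 2), qc_sq_sum]
    · intro x' hx' hne
      rw [av_val2 (R x) (W x) x (R x') (W x') x' (mem_filter.1 hx).2 (mem_filter.1 hx').2 hne.symm qc qc, qc_sum hF, zero_mul, zero_div]
  rw [sum_congr rfl h2, sum_const, nsmul_eq_mul]

lemma psi_four (hF : ringChar F ≠ 2) (R W : F → F) : av (fun z => psi R W z ^ 4) ≤ (Fintype.card F : ℝ) ^ 3 := by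
  have hq : (0 : ℝ) < Fintype.card F := by exact_mod_cast Fintype.card_pos
  have h1 : ∀ z, psi R W z ^ 4 ≤ (Fintype.card F : ℝ) ^ 2 * psi R W z ^ 2 := by
    intro z
    have h2 := pow_le_pow_left₀ (abs_nonneg _) (psi_abs R W z) 2
    rw [sq_abs] at h2
    nlinarith [sq_nonneg (psi R W z)]
  refine (av_mono h1).trans ?_
  rw [av_mul, psi_two hF]
  have h3 : ((univ.filter fun x => W x ≠ 0).card : ℝ) ≤ Fintype.card F := by
    exact_mod_cast (card_le_card (filter_subset _ _)).trans card_univ.le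
  have h4 : ((Fintype.card F : ℝ) - 1) / Fintype.card F ≤ 1 := by
    rw [div_le_one hq]
    linarith
  have h5 : 0 ≤ ((Fintype.card F : ℝ) - 1) / Fintype.card F := by
    have : (1 : ℝ) ≤ Fintype.card F := by exact_mod_cast Fintype.card_pos
    exact div_nonneg (by linarith) hq.le
  calc (Fintype.card F : ℝ) ^ 2 * ((univ.filter fun x => W x ≠ 0).card * (((Fintype.card F : ℝ) - 1) / Fintype.card F)) ≤
      (Fintype.card F : ℝ) ^ 2 * (Fintype.card F * 1) := by
        refine mul_le_mul_of_nonneg_left (mul_le_mul h3 h4 h5 hq.le) (by positivity)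
    _ = _ := by ring

variable {D : ℕ}

/-- `r` plus the average of the traces of the fibres, up to the sign of the character sums -/
noncomputable def HH (r : ℕ) (R W : F → F → F) (c : Fin 2 × Fin (D + 1) → F) : ℝ :=
  r - (∑ t, ∑ x, qc (R t x + W t x * ((ev c t).1 + (ev c t).2 * x))) / Fintype.card F

/-- the defect of the base locus -/
noncomputable def dl (r : ℕ) (R W : F → F → F) : ℝ := r - (∑ t, bas (R t) (W t)) / Fintype.card F

lemma HH_eq (r : ℕ) (R W : F → F → F) (c : Fin 2 × Fin (D + 1) → F) :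
    HH r R W c = dl r R W - (1 / Fintype.card F) * sm univ (fun t => psi (R t) (W t)) c := by
  unfold HH dl sm
  have h1 : ∑ t, ∑ x, qc (R t x + W t x * ((ev c t).1 + (ev c t).2 * x)) = ∑ t, bas (R t) (W t) + ∑ t, psi (R t) (W t) (ev c t) := by
    rw [← sum_add_distrib]
    exact sum_congr rfl fun t _ => phi_eq (R t) (W t) (ev c t)
  rw [h1, add_div]
  ring

lemma HH_one (hF : ringChar F ≠ 2) (r : ℕ) (R W : F → F → F) :
    av (fun c : Fin 2 × Fin (D + 1) → F => HH r R W c) = dl r R W := by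
  simp only [HH_eq]
  rw [av_sub, av_const, av_mul, sm_one univ _ fun t => psi_one hF (R t) (W t)]
  ring

lemma HH_two (hF : ringChar F ≠ 2) (hD : 3 ≤ D) (r : ℕ) (R W : F → F → F) (hW : ∀ t, (univ.filter fun x => W t x = 0).card ≤ r) :
    |av (fun c : Fin 2 × Fin (D + 1) → F => HH r R W c ^ 2) - 1| ≤ dl r R W ^ 2 + (r + 1) / Fintype.card F := by
  have hq : (0 : ℝ) < Fintype.card F := by exact_mod_cast Fintype.card_pos
  have hq1 : (1 : ℝ) ≤ Fintype.card F := by exact_mod_cast Fintype.card_pos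
  obtain ⟨q, hqq⟩ : ∃ q : ℝ, q = Fintype.card F := ⟨_, rfl⟩
  have h1 : (fun c : Fin 2 × Fin (D + 1) → F => HH r R W c ^ 2) = fun c => dl r R W ^ 2 +
      (-(2 * dl r R W * (1 / q)) * sm univ (fun t => psi (R t) (W t)) c + (1 / q) ^ 2 * sm univ (fun t => psi (R t) (W t)) c ^ 2) := by
    funext c
    rw [HH_eq, ← hqq]
    ring
  rw [h1, av_add, av_add, av_const, av_mul, av_mul, sm_one univ _ fun t => psi_one hF (R t) (W t),
    sm_two hD univ _ fun t => psi_one hF (R t) (W t), sum_congr rfl fun t _ => psi_two hF (R t) (W t), ← sum_mul, ← hqq]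
  rw [← hqq] at hq hq1
  obtain ⟨M, hM⟩ : ∃ M : ℝ, M = ∑ t, ((univ.filter fun x => W t x ≠ 0).card : ℝ) := ⟨_, rfl⟩
  rw [← hM]
  have hM1 : M ≤ q * q := by
    rw [hM]
    have h2 : ∀ t ∈ (univ : Finset F), ((univ.filter fun x => W t x ≠ 0).card : ℝ) ≤ q := fun t _ => by
      rw [hqq]
      exact_mod_cast (card_le_card (filter_subset _ _)).trans card_univ.le
    refine (sum_le_sum h2).trans ?_
    rw [sum_const, card_univ, nsmul_eq_mul, ← hqq]
  have hM2 : q * (q - r) ≤ M := by
    rw [hM]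
    have h2 : ∀ t ∈ (univ : Finset F), q - r ≤ ((univ.filter fun x => W t x ≠ 0).card : ℝ) := fun t _ => by
      have h3 := card_filter_add_card_filter_not (s := (univ : Finset F)) (fun x => W t x = 0)
      rw [card_univ] at h3
      have h4 : ((univ.filter fun x => W t x = 0).card : ℝ) + ((univ.filter fun x => ¬ W t x = 0).card : ℝ) = q := by
        rw [hqq]
        exact_mod_cast h3
      have h5 : ((univ.filter fun x => W t x = 0).card : ℝ) ≤ r := by exact_mod_cast hW t
      show q - r ≤ ((univ.filter fun x => ¬ W t x = 0).card : ℝ)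
      linarith
    refine le_trans (le_of_eq ?_) (sum_le_sum h2)
    rw [sum_const, card_univ, nsmul_eq_mul, ← hqq]
  have h3 : (1 / q) ^ 2 * (M * ((q - 1) / q)) ≤ 1 := by
    have h4 : (1 / q) ^ 2 * (M * ((q - 1) / q)) = M * (q - 1) / (q ^ 2 * q) := by
      field_simp
    rw [h4, div_le_one (by positivity)]
    have : M * (q - 1) ≤ q * q * (q - 1) := mul_le_mul_of_nonneg_right hM1 (by linarith)
    nlinarith
  have h4 : 1 - (r + 1) / q ≤ (1 / q) ^ 2 * (M * ((q - 1) / q)) := by
    have h5 : (1 / q) ^ 2 * (M * ((q - 1) / q)) = M * (q - 1) / (q ^ 2 * q) := by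
      field_simp
    have h6 : 1 - ((r : ℝ) + 1) / q = (q - r - 1) * q ^ 2 / (q ^ 2 * q) := by
      field_simp
      ring
    rw [h5, h6]
    refine div_le_div_of_nonneg_right ?_ (by positivity)
    have h7 : q * (q - r) * (q - 1) ≤ M * (q - 1) := mul_le_mul_of_nonneg_right hM2 (by linarith)
    have h8 : (0 : ℝ) ≤ r := Nat.cast_nonneg r
    nlinarith
  have h5 : 0 ≤ dl r R W ^ 2 := sq_nonneg _
  have h6 : 0 ≤ ((r : ℝ) + 1) / q := by positivity
  rw [abs_le]
  constructor <;> linarith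

lemma HH_four (hF : ringChar F ≠ 2) (hD : 3 ≤ D) (r : ℕ) (R W : F → F → F) :
    av (fun c : Fin 2 × Fin (D + 1) → F => HH r R W c ^ 4) ≤ 8 * (dl r R W ^ 4 + 4) := by
  have hq : (0 : ℝ) < Fintype.card F := by exact_mod_cast Fintype.card_pos
  have hq1 : (1 : ℝ) ≤ Fintype.card F := by exact_mod_cast Fintype.card_pos
  obtain ⟨q, hqq⟩ : ∃ q : ℝ, q = Fintype.card F := ⟨_, rfl⟩
  have h1 : ∀ c : Fin 2 × Fin (D + 1) → F, HH r R W c ^ 4 ≤ 8 * dl r R W ^ 4 + 8 * (1 / q) ^ 4 * sm univ (fun t => psi (R t) (W t)) c ^ 4 := by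
    intro c
    rw [HH_eq, ← hqq]
    obtain ⟨a, ha⟩ : ∃ a : ℝ, a = dl r R W := ⟨_, rfl⟩
    obtain ⟨b, hb⟩ : ∃ b : ℝ, b = 1 / q * sm univ (fun t => psi (R t) (W t)) c := ⟨_, rfl⟩
    have h2 : 8 * (1 / q) ^ 4 * sm univ (fun t => psi (R t) (W t)) c ^ 4 = 8 * b ^ 4 := by
      rw [hb]
      ring
    rw [h2, ← ha, ← hb]
    have h3 : (a - b) ^ 2 ≤ 2 * (a ^ 2 + b ^ 2) := by nlinarith [sq_nonneg (a + b)]
    have h4 : (a - b) ^ 4 ≤ (2 * (a ^ 2 + b ^ 2)) ^ 2 := by
      have := pow_le_pow_left₀ (sq_nonneg (a - b)) h3 2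
      calc (a - b) ^ 4 = ((a - b) ^ 2) ^ 2 := by ring
        _ ≤ _ := this
    nlinarith [sq_nonneg (a ^ 2 - b ^ 2)]
  refine (av_mono h1).trans ?_
  rw [av_add, av_const, av_mul]
  have h2 := sm_four hD univ (fun t => psi (R t) (W t)) fun t => psi_one hF (R t) (W t)
  have h3 : ∑ t : F, av (fun z => psi (R t) (W t) z ^ 4) ≤ q * q ^ 3 := by
    refine (sum_le_sum fun t _ => psi_four hF (R t) (W t)).trans (le_of_eq ?_)
    rw [sum_const, card_univ, nsmul_eq_mul, ← hqq]
  have h4 : ∑ t : F, av (fun z => psi (R t) (W t) z ^ 2) ≤ q * q := by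
    have h5 : ∀ t ∈ (univ : Finset F), av (fun z => psi (R t) (W t) z ^ 2) ≤ q := fun t _ => by
      rw [psi_two hF, ← hqq]
      have h6 : ((univ.filter fun x => W t x ≠ 0).card : ℝ) ≤ q := by
        rw [hqq]
        exact_mod_cast (card_le_card (filter_subset _ _)).trans card_univ.le
      rw [← hqq] at hq hq1
      have h7 : (q - 1) / q ≤ 1 := by
        rw [div_le_one hq]
        linarith
      have h8 : 0 ≤ (q - 1) / q := div_nonneg (by linarith) hq.le
      calc ((univ.filter fun x => W t x ≠ 0).card : ℝ) * ((q - 1) / q) ≤ q * 1 := mul_le_mul h6 h7 h8 hq.le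
        _ = q := mul_one q
    refine (sum_le_sum h5).trans (le_of_eq ?_)
    rw [sum_const, card_univ, nsmul_eq_mul, ← hqq]
  have h5 : 0 ≤ ∑ t : F, av (fun z => psi (R t) (W t) z ^ 2) := sum_nonneg fun t _ => av_nonneg fun z => sq_nonneg _
  have h6 : (∑ t : F, av (fun z => psi (R t) (W t) z ^ 2)) ^ 2 ≤ (q * q) ^ 2 := pow_le_pow_left₀ h5 h4 2
  rw [← hqq] at hq
  have h7 : 8 * (1 / q) ^ 4 * av (fun c : Fin 2 × Fin (D + 1) → F => sm univ (fun t => psi (R t) (W t)) c ^ 4) ≤ 8 * (1 / q) ^ 4 * (4 * q ^ 4) :=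
    mul_le_mul_of_nonneg_left (by nlinarith) (by positivity)
  have h8 : 8 * (1 / q) ^ 4 * (4 * q ^ 4) = 32 := by
    field_simp
    norm_num
  linarith

end

end Q285NG
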