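import Pool.Agent.Q285.NG.Fam

/-!
# Brownian fluctuations of the sums of the average traces
-/

set_option autoImplicit false
set_option linter.unusedSectionVars false

namespace Q285NG

open Finset Polynomial Filter
open scoped NNReal Topology
open Q282.CL
open Q282.BP (PP)
open Q282.GK (kbox)

section

variable {D r : ℕ} {F₀ : ℤ[X][X]} {s y : Fin r → ℤ[X]}

lemma two_abs (u : Fin 2 × Fin (D + 1) → ZMod 2) : |HP F₀ s 2 u| ≤ r + 4 := by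
  have : Fact (Nat.Prime 2) := ⟨Nat.prime_two⟩
  have h := HP_abs F₀ s 2 u
  norm_num at h
  exact h

lemma av_abs_le {α : Type} [Fintype α] [Nonempty α] (f : α → ℝ) (c : ℝ) (h : ∀ a, |f a| ≤ c) : |av f| ≤ c := by
  rw [abs_le]
  constructor
  · have h1 := av_mono fun a => (abs_le.1 (h a)).1
    rw [av_const] at h1
    exact h1
  · have h1 := av_mono fun a => (abs_le.1 (h a)).2
    rw [av_const] at h1
    exact h1

lemma mom_one (hs : Function.Injective s) (hy : ∀ j, y j ≠ 0) (hq : ∀ j, F₀.eval (s j) = y j ^ 2) (p : ℕ) (hp : p.Prime) :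
    |mn (HP (D := D) F₀ s) p| ≤ (KK s y + 2 * (r + 4)) * (1 / p) := by
  have : Fact p.Prime := ⟨hp⟩
  have hp0 : (0 : ℝ) < p := by exact_mod_cast hp.pos
  rw [mn_eq]
  by_cases h2 : p = 2
  · subst h2
    refine (av_abs_le _ _ fun u => two_abs u).trans ?_
    have := KK_nonneg (s := s) (y := y)
    push_cast
    linarith
  · have h1 : HP (D := D) F₀ s p = fun u => HH r (val p F₀) (WW s p) u := funext fun u => HP_eq F₀ s p h2 u
    rw [h1, HH_one (by rw [ZMod.ringChar_zmod_n]; exact h2)]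
    refine (dl_fam hs hy hq p).trans ?_
    rw [mul_one_div]
    refine div_le_div_of_nonneg_right ?_ hp0.le
    have : (0 : ℝ) ≤ r := Nat.cast_nonneg r
    linarith

lemma mom_two (hD : 3 ≤ D) (hs : Function.Injective s) (hy : ∀ j, y j ≠ 0) (hq : ∀ j, F₀.eval (s j) = y j ^ 2) (p : ℕ) (hp : p.Prime) :
    |mn (fun p u => HP (D := D) F₀ s p u ^ 2) p - 1| ≤ (KK s y ^ 2 + (r + 1) + 2 * ((r + 4) ^ 2 + 1)) * (1 / p) := by
  have : Fact p.Prime := ⟨hp⟩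
  have hp0 : (0 : ℝ) < p := by exact_mod_cast hp.pos
  have hp1 : (1 : ℝ) ≤ p := by exact_mod_cast hp.one_le
  have hr : (0 : ℝ) ≤ r := Nat.cast_nonneg r
  have hK := KK_nonneg (s := s) (y := y)
  rw [mn_eq (fun p u => HP (D := D) F₀ s p u ^ 2)]
  by_cases h2 : p = 2
  · subst h2
    refine (abs_sub _ _).trans ?_
    have h3 := av_abs_le (fun u => HP (D := D) F₀ s 2 u ^ 2) ((r + 4) ^ 2) fun u => by
      rw [abs_pow]
      exact pow_le_pow_left₀ (abs_nonneg _) (two_abs u) 2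
    rw [abs_one]
    push_cast
    nlinarith [sq_nonneg (KK s y)]
  · have h1 : (fun u => HP (D := D) F₀ s p u ^ 2) = fun u => HH r (val p F₀) (WW s p) u ^ 2 := funext fun u => by rw [HP_eq F₀ s p h2 u]
    rw [h1]
    refine (HH_two (by rw [ZMod.ringChar_zmod_n]; exact h2) hD r _ _ (WW_card s p)).trans ?_
    rw [ZMod.card]
    have h3 := dl_fam hs hy hq p
    have h4 : dl r (val p F₀) (WW s p) ^ 2 ≤ (KK s y / p) ^ 2 := by
      rw [← sq_abs]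
      exact pow_le_pow_left₀ (abs_nonneg _) h3 2
    have h5 : (KK s y / p) ^ 2 ≤ KK s y ^ 2 / p := by
      rw [div_pow]
      exact div_le_div_of_nonneg_left (sq_nonneg _) hp0 (by nlinarith)
    have h7 : (KK s y ^ 2 + ((r : ℝ) + 1) + 2 * (((r : ℝ) + 4) ^ 2 + 1)) * (1 / (p : ℝ)) =
        KK s y ^ 2 / p + ((r : ℝ) + 1) / p + 2 * (((r : ℝ) + 4) ^ 2 + 1) / p := by ring
    rw [h7]
    have h6 : 0 ≤ 2 * (((r : ℝ) + 4) ^ 2 + 1) / (p : ℝ) := by positivity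
    linarith

lemma mom_four (hD : 3 ≤ D) (hs : Function.Injective s) (hy : ∀ j, y j ≠ 0) (hq : ∀ j, F₀.eval (s j) = y j ^ 2) (p : ℕ) (hp : p.Prime) :
    mn (fun p u => HP (D := D) F₀ s p u ^ 4) p ≤ 8 * (KK s y ^ 4 + 4) + (r + 4) ^ 4 := by
  have : Fact p.Prime := ⟨hp⟩
  have hp0 : (0 : ℝ) < p := by exact_mod_cast hp.pos
  have hp1 : (1 : ℝ) ≤ p := by exact_mod_cast hp.one_le
  have hr : (0 : ℝ) ≤ r := Nat.cast_nonneg r
  have hK := KK_nonneg (s := s) (y := y)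
  rw [mn_eq (fun p u => HP (D := D) F₀ s p u ^ 4)]
  by_cases h2 : p = 2
  · subst h2
    have h3 := (abs_le.1 (av_abs_le (fun u => HP (D := D) F₀ s 2 u ^ 4) ((r + 4) ^ 4) fun u => by
      rw [abs_pow]
      exact pow_le_pow_left₀ (abs_nonneg _) (two_abs u) 4)).2
    have : 0 ≤ KK s y ^ 4 := by positivity
    linarith
  · have h1 : (fun u => HP (D := D) F₀ s p u ^ 4) = fun u => HH r (val p F₀) (WW s p) u ^ 4 := funext fun u => by rw [HP_eq F₀ s p h2 u]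
    rw [h1]
    refine (HH_four (by rw [ZMod.ringChar_zmod_n]; exact h2) hD r _ _).trans ?_
    have h3 := dl_fam hs hy hq p
    have h4 : |dl r (val p F₀) (WW s p)| ≤ KK s y := h3.trans (div_le_self hK hp1)
    have h5 : dl r (val p F₀) (WW s p) ^ 4 ≤ KK s y ^ 4 := by
      rw [← Even.pow_abs (by decide : Even 4)]
      exact pow_le_pow_left₀ (abs_nonneg _) h4 4
    have : (0 : ℝ) ≤ (r + 4) ^ 4 := by positivity
    linarith

open Classical in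
/-- convergence to the Brownian motion -/
theorem nagaoB (hD : 3 ≤ D) (hs : Function.Injective s) (hy : ∀ j, y j ≠ 0) (hq : ∀ j, F₀.eval (s j) = y j ^ 2)
    (I : Finset ℝ≥0) (hI : ∀ τ ∈ I, 0 < τ ∧ τ ≤ 1) (x : I → ℝ) (ε : ℝ) (hε : 0 < ε) :
    ∃ X₁ : ℕ, ∀ X : ℕ, X₁ ≤ X → ∀ (N : Fin 2 × Fin (D + 1) → ℤ) (L : Fin 2 × Fin (D + 1) → ℕ), (∀ i, (X : ℝ) ^ X₁ ≤ L i) →
      |(((kbox N L).filter fun t => ∀ τ : I, ∑ p ∈ PP ⌊((τ : ℝ≥0) : ℝ) * X⌋₊, lm X p * HP F₀ s p (fun i => (t i : ZMod p)) ≤ x τ).card : ℝ) /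
        ∏ i, (L i : ℝ) - W I x| ≤ ε := by
  obtain ⟨K₁, hK₁⟩ : ∃ K : ℝ, K = KK s y + 2 * (r + 4) := ⟨_, rfl⟩
  obtain ⟨K₂, hK₂⟩ : ∃ K : ℝ, K = KK s y ^ 2 + (r + 1) + 2 * ((r + 4) ^ 2 + 1) := ⟨_, rfl⟩
  obtain ⟨C₄, hC₄⟩ : ∃ K : ℝ, K = 8 * (KK s y ^ 4 + 4) + (r + 4) ^ 4 := ⟨_, rfl⟩
  have hK := KK_nonneg (s := s) (y := y)
  have hr : (0 : ℝ) ≤ r := Nat.cast_nonneg r
  have hK₁0 : 0 < K₁ := by
    rw [hK₁]
    positivity
  have hK₂0 : 0 < K₂ := by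
    rw [hK₂]
    positivity
  have hC₄0 : 0 ≤ C₄ := by
    rw [hC₄]
    positivity
  obtain ⟨n₀, hn₀⟩ := brownB (κ := Fin 2 × Fin (D + 1)) (C₂ := 2) (C₄ := C₄) (by norm_num) hC₄0 (fun τ hτ => (hI τ hτ).1) x ε hε
  have hn : (0 : ℝ) < n₀ + 1 := by positivity
  -- the small quantities
  obtain ⟨δ, hδ⟩ : ∃ δ : ℝ, δ = 1 / (n₀ + 1) / (2 + K₁ + 2 * K₂) := ⟨_, rfl⟩
  have hδ0 : 0 < δ := by
    rw [hδ]
    positivity
  have hδK : (2 + K₁ + 2 * K₂) * δ = 1 / (n₀ + 1) := by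
    rw [hδ]
    field_simp
  have e1 : ∀ᶠ X : ℕ in atTop, sf X ≤ δ := (sf_tendsto.eventually (gt_mem_nhds hδ0)).mono fun X hX => le_of_lt hX
  have e2 : ∀ᶠ X : ℕ in atTop, ∑ p ∈ PP X, lm X p ^ 2 ≤ 2 := by
    have h1 := (log_sq 1 one_pos le_rfl).eventually (gt_mem_nhds (by norm_num : (1 : ℝ) < 2))
    refine h1.mono fun X hX => ?_
    rw [one_mul, Nat.floor_natCast] at hX
    exact hX.le
  have e3 : ∀ᶠ X : ℕ in atTop, ∀ τ : I, |∑ p ∈ PP ⌊((τ : ℝ≥0) : ℝ) * X⌋₊, lm X p ^ 2 - ((τ : ℝ≥0) : ℝ)| ≤ 1 / 2 * (1 / (n₀ + 1)) := by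
    rw [eventually_all]
    intro τ
    have h0 := hI τ τ.2
    have h1 := Metric.tendsto_nhds.1 (log_sq ((τ : ℝ≥0) : ℝ) (by exact_mod_cast h0.1) (by exact_mod_cast h0.2)) (1 / 2 * (1 / (n₀ + 1))) (by positivity)
    refine h1.mono fun X hX => ?_
    rw [Real.dist_eq] at hX
    exact hX.le
  obtain ⟨X₀, hX₀⟩ := eventually_atTop.1 ((e1.and e2).and e3)
  refine ⟨max (max X₀ n₀) (r + 2), fun X hX N L hL => ?_⟩
  have hXX₀ : X₀ ≤ X := (le_max_left _ _).trans ((le_max_left _ _).trans hX)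
  have hXr : r + 2 ≤ X := (le_max_right _ _).trans hX
  obtain ⟨⟨hsf, hsum⟩, hlog⟩ := hX₀ X hXX₀
  have hX2 : 2 ≤ X := by omega
  have hX1 : (1 : ℝ) ≤ X := by exact_mod_cast (by omega : 1 ≤ X)
  have hXr' : (r : ℝ) + 2 ≤ X := by exact_mod_cast hXr
  have hsf0 : 0 ≤ sf X := sf_nonneg hX2
  have hpp : ∀ p ∈ PP X, p.Prime ∧ p ≤ X := fun p hp => ⟨(mem_filter.1 hp).2, (mem_Icc.1 (mem_filter.1 hp).1).2⟩
  have hlin : Lin (Fin 2 × Fin (D + 1)) 2 C₄ n₀ X L (HP F₀ s) (lm X) := by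
    refine ⟨hX2, fun i => (pow_le_pow_right₀ hX1 ((le_max_right _ _).trans (le_max_left _ _))).trans (hL i), ?_, lm_le_one hX2, hsum, ?_, ?_, ?_⟩
    · intro p hp u
      obtain ⟨hpr, hpX⟩ := hpp p hp
      have : Fact p.Prime := ⟨hpr⟩
      by_cases h2 : p = 2
      · subst h2
        refine (two_abs u).trans ?_
        nlinarith
      · rw [HP_eq F₀ s p h2]
        refine (HH_abs _ _ _ _).trans ?_
        rw [ZMod.card]
        have : (p : ℝ) ≤ X := by exact_mod_cast hpX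
        nlinarith
    · refine (sum_cube hX2).trans ?_
      rw [← hδK]
      have h1 : 0 ≤ ∑ p ∈ PP X, lm X p ^ 2 := sum_nonneg fun _ _ => sq_nonneg _
      nlinarith
    · intro p hp
      rw [hC₄]
      exact mom_four hD hs hy hq p (hpp p hp).1
    · have h1 : ∀ p ∈ PP X, |lm X p| * |mn (HP F₀ s) p| ≤ K₁ * (|lm X p| * (1 / p)) := fun p hp => by
        have h2 := mom_one (D := D) hs hy hq p (hpp p hp).1
        rw [← hK₁] at h2
        calc |lm X p| * |mn (HP F₀ s) p| ≤ |lm X p| * (K₁ * (1 / p)) := mul_le_mul_of_nonneg_left h2 (abs_nonneg _)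
          _ = _ := by ring
      refine (sum_le_sum h1).trans ?_
      rw [← mul_sum, ← hδK]
      have h2 := sum_inv hX2
      have h3 : K₁ * ∑ p ∈ PP X, |lm X p| * (1 / p) ≤ K₁ * δ := mul_le_mul_of_nonneg_left (h2.trans hsf) hK₁0.le
      nlinarith
  have hfl : ∀ τ : I, ⌊((τ : ℝ≥0) : ℝ) * X⌋₊ ≤ X := by
    intro τ
    refine Nat.floor_le_of_le ?_
    have h1 : ((τ : ℝ≥0) : ℝ) ≤ 1 := by exact_mod_cast (hI τ τ.2).2
    nlinarith
  have hv : ∀ τ τ' : I, |∑ p ∈ PP (min ⌊((τ : ℝ≥0) : ℝ) * X⌋₊ ⌊((τ' : ℝ≥0) : ℝ) * X⌋₊), lm X p ^ 2 * mn (fun p u => HP (D := D) F₀ s p u ^ 2) p -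
      ((min (τ : ℝ≥0) (τ' : ℝ≥0) : ℝ≥0) : ℝ)| ≤ 1 / (n₀ + 1) := by
    have key : ∀ τ : I, |∑ p ∈ PP ⌊((τ : ℝ≥0) : ℝ) * X⌋₊, lm X p ^ 2 * mn (fun p u => HP (D := D) F₀ s p u ^ 2) p -
        ((τ : ℝ≥0) : ℝ)| ≤ 1 / (n₀ + 1) := by
      intro τ
      have h1 : |∑ p ∈ PP ⌊((τ : ℝ≥0) : ℝ) * X⌋₊, lm X p ^ 2 * mn (fun p u => HP (D := D) F₀ s p u ^ 2) p -
          ∑ p ∈ PP ⌊((τ : ℝ≥0) : ℝ) * X⌋₊, lm X p ^ 2| ≤ K₂ * δ := by
        rw [← sum_sub_distrib]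
        refine (abs_sum_le_sum_abs _ _).trans ?_
        have h2 : ∀ p ∈ PP ⌊((τ : ℝ≥0) : ℝ) * X⌋₊, |lm X p ^ 2 * mn (fun p u => HP (D := D) F₀ s p u ^ 2) p - lm X p ^ 2| ≤
            K₂ * (lm X p ^ 2 * (1 / p)) := fun p hp => by
          have h3 := mom_two (D := D) hD hs hy hq p (mem_filter.1 hp).2
          rw [← hK₂] at h3
          have h4 : lm X p ^ 2 * mn (fun p u => HP (D := D) F₀ s p u ^ 2) p - lm X p ^ 2 =
              lm X p ^ 2 * (mn (fun p u => HP (D := D) F₀ s p u ^ 2) p - 1) := by ring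
          rw [h4, abs_mul, abs_of_nonneg (sq_nonneg (lm X p))]
          calc lm X p ^ 2 * |mn (fun p u => HP (D := D) F₀ s p u ^ 2) p - 1| ≤ lm X p ^ 2 * (K₂ * (1 / p)) :=
                mul_le_mul_of_nonneg_left h3 (sq_nonneg _)
            _ = _ := by ring
        refine (sum_le_sum h2).trans ?_
        rw [← mul_sum]
        refine mul_le_mul_of_nonneg_left ?_ hK₂0.le
        refine le_trans ?_ ((sum_sq_inv hX2).trans hsf)
        refine sum_le_sum_of_subset_of_nonneg ?_ fun p _ _ => by positivity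
        exact filter_subset_filter _ (Icc_subset_Icc_right (hfl τ))
      have h2 := hlog τ
      have h3 : K₂ * δ ≤ 1 / 2 * (1 / (n₀ + 1)) := by
        rw [← hδK]
        nlinarith
      have h4 := abs_sub_le (∑ p ∈ PP ⌊((τ : ℝ≥0) : ℝ) * X⌋₊, lm X p ^ 2 * mn (fun p u => HP (D := D) F₀ s p u ^ 2) p)
        (∑ p ∈ PP ⌊((τ : ℝ≥0) : ℝ) * X⌋₊, lm X p ^ 2) ((τ : ℝ≥0) : ℝ)
      linarith
    intro τ τ'
    rcases le_total (τ : ℝ≥0) (τ' : ℝ≥0) with h | h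
    · have h1 : ⌊((τ : ℝ≥0) : ℝ) * X⌋₊ ≤ ⌊((τ' : ℝ≥0) : ℝ) * X⌋₊ :=
        Nat.floor_le_floor (mul_le_mul_of_nonneg_right (by exact_mod_cast h) (Nat.cast_nonneg X))
      rw [min_eq_left h1, min_eq_left h]
      exact key τ
    · have h1 : ⌊((τ' : ℝ≥0) : ℝ) * X⌋₊ ≤ ⌊((τ : ℝ≥0) : ℝ) * X⌋₊ :=
        Nat.floor_le_floor (mul_le_mul_of_nonneg_right (by exact_mod_cast h) (Nat.cast_nonneg X))
      rw [min_eq_right h1, min_eq_right h]
      exact key τ'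
  exact hn₀ ⟨n₀, X, N, L, HP F₀ s, lm X, fun τ => ⌊((τ : ℝ≥0) : ℝ) * X⌋₊, hlin, hfl, hv⟩ le_rfl

end

end Q285NG
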