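import Pool.Agent.Q282.CL.Brown

/-!
# The second moment over boxes of sums of periodic functions, with the exact variance
-/

set_option autoImplicit false
set_option linter.unusedSectionVars false

namespace Q285NG

open Finset
open Q282.CL
open Q282.BP (bx mem_bx card_bx PP)
open Q282.GK (kbox mean_res)
open Pool.Agent.TH894.NE (box mem_box card_box Per mean mean_mul mean_mono mean_prod)

section

variable {d : ℕ} {g : ℕ → (Fin d → ℕ) → ℝ} {S : Finset ℕ}

/-- the second moment -/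
theorem sq_var (hS : ∀ p ∈ S, p.Prime) (hg : ∀ p ∈ S, Per p (g p)) (hg0 : ∀ p ∈ S, mean d p (g p) = 0)
    {C : ℝ} (hb : ∀ p ∈ S, ∀ n, |g p n| ≤ C)
    {Y : ℕ} (hY : ∀ p ∈ S, p ≤ Y)
    {T : ℝ} (hT0 : 0 < T) {L : Fin d → ℕ} (hL : ∀ i, T ≤ L i) :
    av (fun n : bx L => (∑ p ∈ S, g p n) ^ 2) ≤
      ∑ p ∈ S, mean d p (fun n => g p n ^ 2) + (Y : ℝ) ^ 2 * (C ^ 2 * (Real.exp (d * (Y : ℝ) ^ 2 / T) - 1)) := by
  classical
  have hL0 : ∀ i, 0 < L i := fun i => by
    have : (0 : ℝ) < L i := hT0.trans_le (hL i)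
    exact_mod_cast this
  have : Nonempty (bx L) := bx_nonempty hL0
  have : ∀ p : S, Nonempty (box d p) := box_nonempty hS
  obtain ⟨η, hη⟩ : ∃ η : ℝ, η = C ^ 2 * (Real.exp (d * (Y : ℝ) ^ 2 / T) - 1) := ⟨_, rfl⟩
  have hη0 : 0 ≤ η := by
    rw [hη]
    refine mul_nonneg (by positivity) ?_
    have : 0 ≤ (d : ℝ) * (Y : ℝ) ^ 2 / T := by positivity
    linarith [Real.one_le_exp this]
  have h := mom_transfer (α := bx L) (ι := S) (Ω := fun p : S => box d p) (m := 2) (fun p n => g p n) (fun p n => g p n)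
    (η := η) (by
      intro τ
      refine (mono_bx hS hg (fun p hp n => hb p hp n) hY hT0 hL τ).trans ?_
      rw [hη])
  have e1 : ∀ n, ∑ p : S, g p n = ∑ p ∈ S, g p n := fun n => Finset.sum_coe_sort S (fun p => g p n)
  simp only [e1] at h
  rw [Fintype.card_coe] at h
  have hcard : (S.card : ℝ) ≤ Y := by
    have : S.card ≤ Y := by
      calc S.card ≤ (Icc 1 Y).card := card_le_card fun p hp => by
            rw [mem_Icc]
            exact ⟨(hS p hp).one_lt.le, hY p hp⟩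
        _ = Y := by rw [Nat.card_Icc, Nat.add_sub_cancel]
    exact_mod_cast this
  have h2 : av (fun ω : ∀ p : S, box d p => (∑ p : S, g p (ω p)) ^ 2) = ∑ p ∈ S, mean d p (fun n => g p n ^ 2) := by
    have h3 : (fun ω : ∀ p : S, box d p => (∑ p : S, g p (ω p)) ^ 2) =
        fun ω => ∑ p : S, ∑ p' : S, g p (ω p) * g p' (ω p') := by
      funext ω
      rw [sq, sum_mul_sum]
    rw [h3, av_sum, ← Finset.sum_coe_sort S (fun p => mean d p (fun n => g p n ^ 2))]
    refine sum_congr rfl fun p _ => ?_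
    rw [av_sum, sum_eq_single_of_mem p (mem_univ p)]
    · have h4 : (fun ω : ∀ p : S, box d p => g p (ω p) * g p (ω p)) =
          fun ω => ∏ r : S, (fun (r : S) (n : box d r) => if r = p then g r n ^ 2 else 1) r (ω r) := by
        funext ω
        show _ = ∏ r : S, (if r = p then g r (ω r) ^ 2 else 1)
        rw [prod_ite_eq' univ p, if_pos (mem_univ _), sq]
      rw [h4, av_pi (fun (r : S) (n : box d r) => if r = p then g r n ^ 2 else 1), ← mul_prod_erase univ _ (mem_univ p)]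
      have h5 : ∏ r ∈ univ.erase p, av (fun n : box d r => if r = p then g r n ^ 2 else (1 : ℝ)) = 1 := by
        refine prod_eq_one fun r hr => ?_
        have h6 : (fun n : box d r => if r = p then g r n ^ 2 else (1 : ℝ)) = fun _ => 1 := by
          funext n
          rw [if_neg (ne_of_mem_erase hr)]
        rw [h6, av_const]
      rw [h5, mul_one]
      have h6 : (fun n : box d p => if p = p then g p n ^ 2 else (1 : ℝ)) = fun n : box d p => (fun n => g p n ^ 2) n := by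
        funext n
        rw [if_pos rfl]
      rw [h6, av_box (fun n => g p n ^ 2)]
    · intro p' _ hne
      have h4 : (fun ω : ∀ p : S, box d p => g p (ω p) * g p' (ω p')) =
          fun ω => ∏ r : S, (fun (r : S) (n : box d r) => (if r = p then g r n else 1) * (if r = p' then g r n else 1)) r (ω r) := by
        funext ω
        show _ = ∏ r : S, ((if r = p then g r (ω r) else 1) * (if r = p' then g r (ω r) else 1))
        rw [prod_mul_distrib, prod_ite_eq' univ p, prod_ite_eq' univ p', if_pos (mem_univ _), if_pos (mem_univ _)]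
      rw [h4, av_pi (fun (r : S) (n : box d r) => (if r = p then g r n else 1) * (if r = p' then g r n else 1))]
      refine prod_eq_zero (mem_univ p) ?_
      have h5 : (fun n : box d p => (if p = p then g p n else 1) * (if p = p' then g p n else 1)) = fun n : box d p => g p n := by
        funext n
        rw [if_pos rfl, if_neg fun h => hne h.symm, mul_one]
      rw [h5, av_box (g p), hg0 p p.2]
  have h3 := (abs_le.1 h).2
  have h4 : (S.card : ℝ) ^ 2 * η ≤ (Y : ℝ) ^ 2 * η := mul_le_mul_of_nonneg_right (pow_le_pow_left₀ (Nat.cast_nonneg _) hcard 2) hη0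
  rw [← hη]
  rw [h2] at h3
  linarith

end

/-! ### the coordinates -/

variable {κ : Type} [Fintype κ] [DecidableEq κ]

/-- the second moment over a box of integers -/
theorem sq_k (X : ℕ) (H : (p : ℕ) → (κ → ZMod p) → ℝ) (w : ℕ → ℝ) (C : ℝ) (hH : ∀ p ∈ PP X, ∀ u, |w p * (H p u - mn H p)| ≤ C)
    (T : ℝ) (hT0 : 0 < T) (N : κ → ℤ) (L : κ → ℕ) (hL : ∀ i, T ≤ L i) :
    av (fun t : kbox N L => (∑ p ∈ PP X, w p * (H p (fun i => ((t : κ → ℤ) i : ZMod p)) - mn H p)) ^ 2) ≤
      ∑ p ∈ PP X, w p ^ 2 * vr H p + (X : ℝ) ^ 2 * (C ^ 2 * (Real.exp (Fintype.card κ * (X : ℝ) ^ 2 / T) - 1)) := by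
  classical
  obtain ⟨e⟩ : Nonempty (κ ≃ Fin (Fintype.card κ)) := ⟨Fintype.equivFin κ⟩
  have hPP : ∀ p ∈ PP X, p.Prime := fun p hp => (mem_filter.1 hp).2
  have h1 := sq_var (d := Fintype.card κ) (S := PP X) (g := fun p n => w p * (H p (fun i => ((N i + (n (e i) : ℤ) : ℤ) : ZMod p)) - mn H p)) hPP
    (fun p hp n => by
      have h2 : H p (fun i => ((N i + (n (e i) : ℤ) : ℤ) : ZMod p)) =
          H p (fun i => ((N i + (((fun i => n i % p) (e i) : ℕ) : ℤ) : ℤ) : ZMod p)) := by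
        congr 1
        funext i
        rw [Int.cast_add, Int.cast_add, Int.cast_natCast, Int.cast_natCast, ZMod.natCast_mod]
      show w p * (H p _ - mn H p) = w p * (H p _ - mn H p)
      rw [h2])
    (fun p hp => by
      have : Fact p.Prime := ⟨hPP p hp⟩
      rw [mean_av e p N (fun u => w p * (H p u - mn H p)), av_mul, av_sub, av_const, mn_eq, sub_self, mul_zero])
    (C := C) (fun p hp n => hH p hp _) (Y := X)
    (fun p hp => (mem_Icc.1 (mem_filter.1 hp).1).2) hT0 (L := fun k => L (e.symm k)) (fun k => hL _)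
  have h2 : av (fun t : kbox N L => (∑ p ∈ PP X, w p * (H p (fun i => ((t : κ → ℤ) i : ZMod p)) - mn H p)) ^ 2) =
      av (fun n : bx (fun k => L (e.symm k)) => (∑ p ∈ PP X, w p * (H p (fun i => ((N i + ((n : Fin _ → ℕ) (e i) : ℤ) : ℤ) : ZMod p)) - mn H p)) ^ 2) := by
    rw [av_equiv (kequiv e N L)]
    rfl
  have h3 : ∑ p ∈ PP X, w p ^ 2 * vr H p = ∑ p ∈ PP X, mean (Fintype.card κ) p
      (fun n => (w p * (H p (fun i => ((N i + (n (e i) : ℤ) : ℤ) : ZMod p)) - mn H p)) ^ 2) := by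
    refine sum_congr rfl fun p hp => ?_
    have : Fact p.Prime := ⟨(mem_filter.1 hp).2⟩
    rw [mean_av e p N (fun u => (w p * (H p u - mn H p)) ^ 2)]
    have h4 : (fun u => (w p * (H p u - mn H p)) ^ 2) =
        fun u => w p ^ 2 * (H p u ^ 2 - ((2 * mn H p) * H p u - mn H p ^ 2)) := by
      funext u
      ring
    rw [h4, av_mul, av_sub, av_sub, av_mul, av_const, ← mn_eq]
    unfold vr
    rw [mn_eq (fun p u => H p u ^ 2)]
    ring
  rw [h2, h3]
  exact h1

/-- the characteristic function over a box of integers, bounded functions -/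
theorem chr_k (X : ℕ) (hX : 1 ≤ X) (H : (p : ℕ) → (κ → ZMod p) → ℝ) (w : ℕ → ℝ) (b : ℕ → ℝ) (hb0 : ∀ p ∈ PP X, 0 ≤ b p)
    (hH : ∀ p ∈ PP X, ∀ u, |w p * (H p u - mn H p)| ≤ b p) (C : ℝ) (hC : 1 ≤ C) (hbC : ∀ p ∈ PP X, b p ≤ C)
    (V : ℝ) (hV : 0 < V) (hbV : ∑ p ∈ PP X, b p ^ 2 ≤ V) (k : ℕ) (hk : 1 ≤ k)
    (T : ℝ) (hT0 : 0 < T) (N : κ → ℤ) (L : κ → ℕ) (hL : ∀ i, T ≤ L i) :
    ‖av (fun t : kbox N L => Complex.exp (((∑ p ∈ PP X, w p * (H p (fun i => ((t : κ → ℤ) i : ZMod p)) - mn H p) : ℝ) : ℂ) * Complex.I)) -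
      Complex.exp ((-((∑ p ∈ PP X, w p ^ 2 * vr H p) / 2) : ℝ) : ℂ)‖ ≤
      4 * (Real.exp 1 * V / k) ^ k +
        (2 * k + 1) * ((X : ℝ) + 1) ^ (2 * k) * (C ^ (2 * k) * (Real.exp (Fintype.card κ * (X : ℝ) ^ (2 * k) / T) - 1)) +
        ∑ p ∈ PP X, (b p ^ 3 + b p ^ 4) := by
  classical
  obtain ⟨e⟩ : Nonempty (κ ≃ Fin (Fintype.card κ)) := ⟨Fintype.equivFin κ⟩
  have hPP : ∀ p ∈ PP X, p.Prime := fun p hp => (mem_filter.1 hp).2
  have h1 := chr_bx (d := Fintype.card κ) (S := PP X) (g := fun p n => w p * (H p (fun i => ((N i + (n (e i) : ℤ) : ℤ) : ZMod p)) - mn H p)) hPP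
    (fun p hp n => by
      have h2 : H p (fun i => ((N i + (n (e i) : ℤ) : ℤ) : ZMod p)) =
          H p (fun i => ((N i + (((fun i => n i % p) (e i) : ℕ) : ℤ) : ℤ) : ZMod p)) := by
        congr 1
        funext i
        rw [Int.cast_add, Int.cast_add, Int.cast_natCast, Int.cast_natCast, ZMod.natCast_mod]
      show w p * (H p _ - mn H p) = w p * (H p _ - mn H p)
      rw [h2])
    (fun p hp => by
      have : Fact p.Prime := ⟨hPP p hp⟩
      rw [mean_av e p N (fun u => w p * (H p u - mn H p)), av_mul, av_sub, av_const, mn_eq, sub_self, mul_zero])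
    hb0 (fun p hp n => hH p hp _) hC hbC (Y := X) hX
    (fun p hp => (mem_Icc.1 (mem_filter.1 hp).1).2) hV hbV hk hT0 (L := fun k => L (e.symm k)) (fun k => hL _)
  have h2 : av (fun t : kbox N L => Complex.exp (((∑ p ∈ PP X, w p * (H p (fun i => ((t : κ → ℤ) i : ZMod p)) - mn H p) : ℝ) : ℂ) * Complex.I)) =
      av (fun n : bx (fun k => L (e.symm k)) => Complex.exp (((∑ p ∈ PP X, w p * (H p (fun i => ((N i + ((n : Fin _ → ℕ) (e i) : ℤ) : ℤ) : ZMod p)) - mn H p) : ℝ) : ℂ) *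
        Complex.I)) := by
    rw [av_equiv (kequiv e N L)]
    rfl
  have h3 : ∑ p ∈ PP X, w p ^ 2 * vr H p = ∑ p ∈ PP X, mean (Fintype.card κ) p
      (fun n => (w p * (H p (fun i => ((N i + (n (e i) : ℤ) : ℤ) : ZMod p)) - mn H p)) ^ 2) := by
    refine sum_congr rfl fun p hp => ?_
    have : Fact p.Prime := ⟨(mem_filter.1 hp).2⟩
    rw [mean_av e p N (fun u => (w p * (H p u - mn H p)) ^ 2)]
    have h4 : (fun u => (w p * (H p u - mn H p)) ^ 2) =
        fun u => w p ^ 2 * (H p u ^ 2 - ((2 * mn H p) * H p u - mn H p ^ 2)) := by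
      funext u
      ring
    rw [h4, av_mul, av_sub, av_sub, av_mul, av_const, ← mn_eq]
    unfold vr
    rw [mn_eq (fun p u => H p u ^ 2)]
    ring
  rw [h2, h3]
  exact h1

end Q285NG
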